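import Pool.Agent.Helper17.PF.Gen
import Mathlib

/-!
# Project EP (MP_5b9a11_al): large multiplicities for every defect group, definitions

Paper proof: MP_5b9a11_al_helper47.md in the store.
-/

set_option autoImplicit false
set_option linter.unusedSectionVars false

namespace Pool.Agent.Helper47.EP

open MonoidAlgebra IsLocalRing Pool.Agent.Helper17.PF

/-- the data: a symplectic space `K` of order `l²` over `F_l` with an automorphism `t 1` of order `p`
without fixed points -/
structure Dat (p : ℕ) where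
  l : ℕ
  K : Type
  [grp : AddCommGroup K]
  [fin : Fintype K]
  [dec : DecidableEq K]
  w : K →+ K →+ ZMod l
  t : ZMod p → K →+ K
  prime : l.Prime
  ne : l ≠ p
  ne2 : l ≠ 2
  card : Fintype.card K = l ^ 2
  alt : ∀ x, w x x = 0
  nondeg : ∀ x, x ≠ 0 → ∃ y, w x y ≠ 0
  t_zero : ∀ x, t 0 x = x
  t_add : ∀ j k x, t (j + k) x = t j (t k x)
  inv : ∀ j x y, w (t j x) (t j y) = w x y
  inj : ∀ j, j ≠ 0 → ∀ x, t j x = x → x = 0
  gauss : ∀ j k, j ≠ 0 → k ≠ 0 → ∀ y : K → K, (∀ x, t k (y x) - y x = -(t j x - x)) →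
    (j + k = 0 → ∀ x, w (t j x) x + w (t k (y x)) (y x) = 0) ∧
    (j + k ≠ 0 → ∀ z : ZMod l,
      (Finset.univ.filter fun x => w (t j x) x + w (t k (y x)) (y x) = z).card =
        if z = 0 then 1 else l + 1)

attribute [instance] Dat.grp Dat.fin Dat.dec

variable {p : ℕ}

instance (T : Dat p) : Fact T.l.Prime := ⟨T.prime⟩

/-- a character of `F_l` with values in `R`, and the inverse of `l` in `R` -/
structure Chr (T : Dat p) (R : Type) [CommRing R] where
  ψ : AddChar (ZMod T.l) R
  il : R
  il_mul : il * (T.l : R) = 1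
  sum_zero : ∀ c : ZMod T.l, c ≠ 0 → ∑ z, ψ (c * z) = 0

/-- the image of the character under a ring homomorphism -/
def Chr.map {T : Dat p} {R S : Type} [CommRing R] [CommRing S] (C : Chr T R) (f : R →+* S) :
    Chr T S where
  ψ := f.toMonoidHom.compAddChar C.ψ
  il := f C.il
  il_mul := by rw [← map_natCast f, ← map_mul, C.il_mul, map_one]
  sum_zero c hc := by
    have := congrArg f (C.sum_zero c hc)
    rw [map_sum, map_zero] at this
    exact this

/-! ### the Heisenberg group -/

/-- the Heisenberg group of `K^A` -/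
@[ext] structure Hs (T : Dat p) (A : Type) where
  v : A → T.K
  z : ZMod T.l

variable (T : Dat p) (A : Type) [Fintype A] [DecidableEq A]

/-- the Heisenberg group as a set -/
def Hs.equiv : Hs T A ≃ (A → T.K) × ZMod T.l where
  toFun g := (g.v, g.z)
  invFun q := ⟨q.1, q.2⟩
  left_inv _ := rfl
  right_inv _ := rfl

instance : DecidableEq (Hs T A) := (Hs.equiv T A).decidableEq
instance : Fintype (Hs T A) := Fintype.ofEquiv _ (Hs.equiv T A).symm

variable {T A}

/-- the symplectic form of `K^A` -/
def Om (v v' : A → T.K) : ZMod T.l := ∑ a, T.w (v a) (v' a)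

theorem Om_add_left (v v' u : A → T.K) : Om (v + v') u = Om v u + Om v' u := by
  unfold Om
  rw [← Finset.sum_add_distrib]
  refine Finset.sum_congr rfl fun a _ => ?_
  rw [Pi.add_apply, map_add]
  rfl

theorem Om_add_right (v v' u : A → T.K) : Om u (v + v') = Om u v + Om u v' := by
  unfold Om
  rw [← Finset.sum_add_distrib]
  refine Finset.sum_congr rfl fun a _ => ?_
  rw [Pi.add_apply, map_add]

theorem Om_zero_left (v : A → T.K) : Om 0 v = 0 := by
  unfold Om
  refine Finset.sum_eq_zero fun a _ => ?_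
  rw [Pi.zero_apply, map_zero]
  rfl

theorem Om_zero_right (v : A → T.K) : Om v 0 = 0 := by
  unfold Om
  refine Finset.sum_eq_zero fun a _ => ?_
  rw [Pi.zero_apply, map_zero]

theorem Om_neg_right (v v' : A → T.K) : Om v (-v') = -Om v v' := by
  have h := Om_add_right v' (-v') v
  rw [add_neg_cancel, Om_zero_right] at h
  exact (neg_eq_of_add_eq_zero_right h.symm).symm

theorem Om_neg_left (v v' : A → T.K) : Om (-v) v' = -Om v v' := by
  have h := Om_add_left v (-v) v'
  rw [add_neg_cancel, Om_zero_left] at h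
  exact (neg_eq_of_add_eq_zero_right h.symm).symm

theorem Om_self (v : A → T.K) : Om v v = 0 := by
  unfold Om
  exact Finset.sum_eq_zero fun a _ => T.alt _

instance : Group (Hs T A) where
  mul g h := ⟨g.v + h.v, g.z + h.z + Om g.v h.v⟩
  one := ⟨0, 0⟩
  inv g := ⟨-g.v, -g.z⟩
  mul_assoc g h k := by
    ext1
    · exact add_assoc _ _ _
    · show g.z + h.z + Om g.v h.v + k.z + Om (g.v + h.v) k.v =
        g.z + (h.z + k.z + Om h.v k.v) + Om g.v (h.v + k.v)
      rw [Om_add_left, Om_add_right]
      ring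
  one_mul g := by
    ext1
    · exact zero_add _
    · show 0 + g.z + Om 0 g.v = g.z
      rw [Om_zero_left]
      ring
  mul_one g := by
    ext1
    · exact add_zero _
    · show g.z + 0 + Om g.v 0 = g.z
      rw [Om_zero_right]
      ring
  inv_mul_cancel g := by
    ext1
    · exact neg_add_cancel _
    · show -g.z + g.z + Om (-g.v) g.v = 0
      rw [Om_neg_left, Om_self]
      ring

theorem Hs.mul_v (g h : Hs T A) : (g * h).v = g.v + h.v := rfl
theorem Hs.mul_z (g h : Hs T A) : (g * h).z = g.z + h.z + Om g.v h.v := rfl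
theorem Hs.one_v : (1 : Hs T A).v = 0 := rfl
theorem Hs.one_z : (1 : Hs T A).z = 0 := rfl
theorem Hs.inv_v (g : Hs T A) : (g⁻¹).v = -g.v := rfl
theorem Hs.inv_z (g : Hs T A) : (g⁻¹).z = -g.z := rfl

/-- the action of the torus `(Z/p)^A` -/
def ta (j : A → ZMod p) : Hs T A ≃* Hs T A where
  toFun g := ⟨fun a => T.t (j a) (g.v a), g.z⟩
  invFun g := ⟨fun a => T.t (-j a) (g.v a), g.z⟩
  left_inv g := by
    ext1
    · funext a
      show T.t (-j a) (T.t (j a) (g.v a)) = g.v a
      rw [← T.t_add, neg_add_cancel, T.t_zero]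
    · rfl
  right_inv g := by
    ext1
    · funext a
      show T.t (j a) (T.t (-j a) (g.v a)) = g.v a
      rw [← T.t_add, add_neg_cancel, T.t_zero]
    · rfl
  map_mul' g h := by
    ext1
    · funext a
      show T.t (j a) (g.v a + h.v a) = T.t (j a) (g.v a) + T.t (j a) (h.v a)
      exact map_add _ _ _
    · show g.z + h.z + Om g.v h.v = g.z + h.z + Om _ _
      congr 1
      unfold Om
      exact Finset.sum_congr rfl fun a _ => (T.inv _ _ _).symm

theorem ta_v (j : A → ZMod p) (g : Hs T A) (a : A) : (ta j g).v a = T.t (j a) (g.v a) := rfl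
theorem ta_z (j : A → ZMod p) (g : Hs T A) : (ta j g).z = g.z := rfl

theorem ta_zero (g : Hs T A) : ta (0 : A → ZMod p) g = g := by
  ext1
  · funext a
    exact T.t_zero _
  · rfl

theorem ta_add (j k : A → ZMod p) (g : Hs T A) : ta (j + k) g = ta j (ta k g) := by
  ext1
  · funext a
    exact T.t_add _ _ _
  · rfl

/-- the action of the torus as a homomorphism -/
def taHom (T : Dat p) (A : Type) [Fintype A] [DecidableEq A] :
    Multiplicative (A → ZMod p) →* MulAut (Hs T A) where
  toFun j := ta (Multiplicative.toAdd j)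
  map_one' := by
    ext1 g
    exact ta_zero g
  map_mul' j k := by
    ext1 g
    exact ta_add _ _ g

/-! ### the group algebra -/

variable {R : Type} [CommRing R]

/-- the central idempotent `e` -/
noncomputable def ee (C : Chr T R) (A : Type) [Fintype A] [DecidableEq A] :
    MonoidAlgebra R (Hs T A) :=
  C.il • ∑ z : ZMod T.l, single (⟨0, z⟩ : Hs T A) (C.ψ (-z))

/-- the element `e_v` -/
noncomputable def ev (C : Chr T R) (v : A → T.K) : MonoidAlgebra R (Hs T A) :=
  single (⟨v, 0⟩ : Hs T A) (1 : R) * ee C A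

open Classical in
/-- the solution `x` of `ζ^j x - x = y` -/
noncomputable def dv (T : Dat p) (j : ZMod p) (y : T.K) : T.K :=
  if h : ∃ x, T.t j x - x = y then h.choose else 0

/-- the coefficients of `ρ` in one coordinate -/
noncomputable def kap (C : Chr T R) (j : ZMod p) (y : T.K) : R :=
  if j = 0 then (if y = 0 then 1 else 0) else -C.il * C.ψ (-(T.w (T.t j (dv T j y)) (dv T j y)))

/-- the element `ρ(j)` of the group algebra which implements the automorphism `ta j` -/
noncomputable def rho (C : Chr T R) (j : A → ZMod p) : MonoidAlgebra R (Hs T A) :=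
  ∑ v : A → T.K, (∏ a, kap C (j a) (v a)) • ev C v

/-- invariant under the torus elements in `J` -/
def IJ (J : Set (A → ZMod p)) (x : MonoidAlgebra R (Hs T A)) : Prop :=
  ∀ j ∈ J, ∀ g, x.coeff (ta j g) = x.coeff g

/-- supported on the subgroup of the `g` with `g.v a = 0` for all `a` outside `B` -/
def SB (B : Set A) (x : MonoidAlgebra R (Hs T A)) : Prop :=
  ∀ g : Hs T A, x.coeff g ≠ 0 → ∀ a, a ∉ B → g.v a = 0

/-- `i` is a `J`-invariant idempotent below `e` with support in `B` -/
structure Ok (C : Chr T R) (J : Set (A → ZMod p)) (B : Set A) (i : MonoidAlgebra R (Hs T A)) :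
    Prop where
  idem : i * i = i
  ee : ee C A * i = i
  inv : IJ J i
  supp : SB B i

open Classical in
/-- the part of `x` in the set `S` -/
noncomputable def rs {L : Type} (S : Set L) (x : MonoidAlgebra R L) : MonoidAlgebra R L :=
  ofCoeff (x.coeff.filter fun g => g ∈ S)

/-- the dimension of the right ideal generated by `x` -/
noncomputable def dm {k : Type} [Field k] {L : Type} [Group L] (x : MonoidAlgebra k L) : ℕ :=
  Module.finrank k (LinearMap.range (LinearMap.mulLeft k x))

/-- `∏_{j ≤ d} (p ^ j - 1)` -/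
def beta (p d : ℕ) : ℕ := ∏ j ∈ Finset.range d, (p ^ (j + 1) - 1)

/-! ### the homomorphisms of `(Z/p)^r` to `Z/p` up to scalars -/

/-- representatives of the nonzero homomorphisms `(Z/p)^r → Z/p` up to scalars -/
def AA (p r : ℕ) : Type :=
  {h : Fin r → ZMod p // ∃ i, h i = 1 ∧ ∀ j, j < i → h j = 0}

instance (p r : ℕ) [NeZero p] : Fintype (AA p r) :=
  inferInstanceAs (Fintype {h : Fin r → ZMod p // ∃ i, h i = 1 ∧ ∀ j, j < i → h j = 0})

instance (p r : ℕ) : DecidableEq (AA p r) :=
  inferInstanceAs (DecidableEq {h : Fin r → ZMod p // ∃ i, h i = 1 ∧ ∀ j, j < i → h j = 0})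

/-- the pairing -/
def pr {p r : ℕ} (a : AA p r) (u : Fin r → ZMod p) : ZMod p := ∑ i, a.1 i * u i

/-- the exponent vector of `u` restricted to the `a ∈ B` -/
noncomputable def jv {p r : ℕ} (B : Set (AA p r)) (u : Fin r → ZMod p) : AA p r → ZMod p := by
  classical
  exact fun a => if a ∈ B then pr a u else 0

/-- the torus elements which come from `(Z/p)^r` -/
def JQ (p r : ℕ) : Set (AA p r → ZMod p) := Set.range fun (u : Fin r → ZMod p) a => pr a u

/-- the `a` which vanish on `L` -/
def AL {p r : ℕ} (L : AddSubgroup (Fin r → ZMod p)) : Set (AA p r) := {a | ∀ v ∈ L, pr a v = 0}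

/-- the embedding `(Z/p)^r → (Z/p)^A` -/
def emb (p r : ℕ) : Multiplicative (Fin r → ZMod p) →* Multiplicative (AA p r → ZMod p) where
  toFun u := Multiplicative.ofAdd fun a => pr a (Multiplicative.toAdd u)
  map_one' := by
    show Multiplicative.ofAdd (fun a : AA p r => pr a 0) = Multiplicative.ofAdd 0
    congr 1
    funext a
    simp [pr]
  map_mul' u v := by
    show Multiplicative.ofAdd (fun a : AA p r => pr a (Multiplicative.toAdd u +
      Multiplicative.toAdd v)) = Multiplicative.ofAdd ((fun a => pr a (Multiplicative.toAdd u)) +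
      fun a => pr a (Multiplicative.toAdd v))
    congr 1
    funext a
    simp [pr, mul_add, Finset.sum_add_distrib]

/-! ### the group `G = E ⋊ D` -/

/-- the group `G = E ⋊ D`, where `D` acts through `π : D → (Z/p)^A` -/
abbrev GG (T : Dat p) (A : Type) [Fintype A] [DecidableEq A] {D : Type} [Group D]
    (π : D →* Multiplicative (A → ZMod p)) : Type := Hs T A ⋊[(taHom T A).comp π] D

variable {D : Type} [Group D] (π : D →* Multiplicative (A → ZMod p))

/-- the subgroup `D` of `G` -/
def DD (T : Dat p) : Subgroup (GG T A π) := (SemidirectProduct.inr : D →* GG T A π).range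

/-- the embedding of the group algebra of `E` -/
noncomputable def inE (R : Type) [CommRing R] (T : Dat p) :
    MonoidAlgebra R (Hs T A) →+* MonoidAlgebra R (GG T A π) :=
  MonoidAlgebra.mapDomainRingHom R (SemidirectProduct.inl : Hs T A →* GG T A π)

/-- the map `θ : RG → RE e`, `(x, d) ↦ x ρ(d)` -/
noncomputable def th (C : Chr T R) (x : MonoidAlgebra R (GG T A π)) : MonoidAlgebra R (Hs T A) :=
  x.coeff.sum fun g c => c • (single g.left (1 : R) * rho C (Multiplicative.toAdd (π g.right)))

/-- `n` is a multiplicity `m(Q_δ, P_γ)` of the pointed fusion system of a block of `𝒪G`, for some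
finite group `G`, with a defect group `D` isomorphic to `D₀`; and `G` has a normal subgroup `E` of
order prime to `p` with `E D = G` (so `G` is `p`-nilpotent). -/
def OccursIn (𝒪 : Type) [CommRing 𝒪] [IsLocalRing 𝒪] (p : ℕ) (D₀ : Type) [Group D₀] (n : ℕ) :
    Prop :=
  ∃ (G : Type) (_ : Group G) (_ : Finite G) (b i : MonoidAlgebra 𝒪 G) (D Q P : Subgroup G)
    (δ γ : Set (MonoidAlgebra 𝒪 G)),
    IsBlock b ∧ IsDefectGroup p b D ∧ Nonempty (D ≃* D₀) ∧ IsSourceIdempotent b D i ∧
      IsObject b D i Q δ ∧ IsObject b D i P γ ∧ IsMultiplicity b Q δ P γ n ∧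
      ∃ E : Subgroup G, E.Normal ∧ (Nat.card E).Coprime p ∧ E ⊔ D = ⊤

end Pool.Agent.Helper47.EP
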