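import Pool.Agent.Helper47.EP.Final

namespace Pool.Agent.Helper47.EP.EveryDefectGroup

open Pool.Agent.Helper47.EP IsLocalRing

/-- Let `p` be an odd prime and `𝒪` a complete local Noetherian ring with algebraically closed residue
field of characteristic `p`. `OccursIn 𝒪 p D n` means that `n` is a multiplicity `m(Q_δ, P_γ)` of the
pointed fusion system of a block of `𝒪G` with a defect group isomorphic to `D`, where `G` is a finite
group with a normal subgroup `E` of order prime to `p` such that `G = E D` (so the block is nilpotent).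

(1) For every finite `p`-group `D` and every surjective homomorphism `D → (ℤ/p)^r` some such
multiplicity is at least `(p - 1) (p² - 1) ⋯ (p^r - 1)`.
(2) So a bound `N` for the multiplicities of the blocks with defect group `D` is at least
`(p - 1) (p² - 1) ⋯ (p^r - 1)`.
(3) For `D = (ℤ/p)^r`, of order `p^r`, some such multiplicity `n` satisfies `n² ≥ |D|^r`. -/
theorem result (p : ℕ) [Fact p.Prime] (hp : p ≠ 2) (𝒪 : Type) [CommRing 𝒪] [IsLocalRing 𝒪]
    [IsNoetherianRing 𝒪] [IsAdicComplete (maximalIdeal 𝒪) 𝒪] [IsAlgClosed (ResidueField 𝒪)]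
    [CharP (ResidueField 𝒪) p] :
    (∀ (D : Type) [Group D] [Finite D], IsPGroup p D →
      ∀ (r : ℕ) (φ : D →* Multiplicative (Fin r → ZMod p)), Function.Surjective φ →
        (∃ n, OccursIn 𝒪 p D n ∧ ∏ j ∈ Finset.range r, (p ^ (j + 1) - 1) ≤ n) ∧
        ∀ N : ℕ, (∀ n, OccursIn 𝒪 p D n → n ≤ N) → ∏ j ∈ Finset.range r, (p ^ (j + 1) - 1) ≤ N) ∧
    ∀ r : ℕ, ∃ n, OccursIn 𝒪 p (Multiplicative (Fin r → ZMod p)) n ∧ (p ^ r) ^ r ≤ n ^ 2 := by
  have hpr := (Fact.out : p.Prime)
  have h3 : 3 ≤ p := by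
    have := hpr.two_le
    omega
  refine ⟨?_, ?_⟩
  · intro D _ _ hD r φ hφ
    obtain ⟨n, hn, hb⟩ := th_main p hp 𝒪 D hD r φ hφ
    exact ⟨⟨n, hn, hb⟩, fun N hN => hb.trans (hN n hn)⟩
  · intro r
    have hD : IsPGroup p (Multiplicative (Fin r → ZMod p)) := by
      refine IsPGroup.of_card (n := r) ?_
      rw [Nat.card_congr Multiplicative.toAdd, Nat.card_fun, Nat.card_zmod,
        Nat.card_eq_fintype_card, Fintype.card_fin]
    have hfin : Finite (Multiplicative (Fin r → ZMod p)) := by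
      have : NeZero p := ⟨hpr.ne_zero⟩
      infer_instance
    obtain ⟨n, hn, hb⟩ := th_main p hp 𝒪 _ hD r (MonoidHom.id _) Function.surjective_id
    exact ⟨n, hn, (beta_sq p h3 r).trans (Nat.pow_le_pow_left hb 2)⟩

end Pool.Agent.Helper47.EP.EveryDefectGroup
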