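import Pool.Agent.Helper47.EP.Main
import Pool.Agent.Helper1.EP.HB
import Pool.Agent.Helper1.EP.LFT
import Pool.Agent.Helper1.EP.CHR
import Pool.Agent.Helper1.EP.TRO
import Pool.Agent.Helper2.EP.FLD
import Pool.Agent.Helper4.EP.BRH
import Pool.Agent.Helper7.EP.MB
import Pool.Agent.Helper14.EP.WV
import Pool.Agent.Helper15.EP.BLK
import Pool.Agent.Helper18.EP.OBJ
import Pool.Agent.Helper19.EP.RHO
import Pool.Agent.Helper25.EP.SIM
import Pool.Agent.Helper30.EP.REP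
import Pool.Agent.Helper34.EP.TH
import Pool.Agent.Helper36.EP.BRM
import Pool.Agent.Helper39.EP.KAP
import Pool.Agent.Helper40.EP.TR
import Pool.Agent.Helper44.EP.ODD
import Pool.Agent.Helper45.EP.TAU
import Pool.Agent.Helper63.EP.CNT
import Pool.Agent.Helper64.EP.NIL
import Pool.Agent.Helper87.EP.CEN
import Pool.Agent.Helper89.EP.EXI
import Pool.Agent.Helper98.EP.MA
import Pool.Agent.Helper99.EP.SRC

/-!
# Project EP: the theorem
-/

set_option autoImplicit false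

namespace Pool.Agent.Helper47.EP

open MonoidAlgebra IsLocalRing Pool.Agent.Helper17.PF

theorem pHB : S_HB := Pool.Agent.Helper1.EP.HB.t
theorem pRHO : S_RHO := Pool.Agent.Helper19.EP.RHO.t Pool.Agent.Helper39.EP.KAP.t pHB
theorem pMB : S_MB := Pool.Agent.Helper7.EP.MB.t Pool.Agent.Helper98.EP.MA.t
theorem pTAU : S_TAU := Pool.Agent.Helper45.EP.TAU.t pMB pHB pRHO
theorem pLFT : S_LFT := Pool.Agent.Helper1.EP.LFT.t
theorem pODD : S_ODD := Pool.Agent.Helper44.EP.ODD.t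
theorem pCHR : S_CHR := Pool.Agent.Helper1.EP.CHR.t
theorem pNUM : S_NUM := num pHB pRHO Pool.Agent.Helper40.EP.TR.t Pool.Agent.Helper1.EP.TRO.t pTAU
  Pool.Agent.Helper4.EP.BRH.t pLFT pODD
theorem pNUF : S_NUF := nuf pNUM Pool.Agent.Helper14.EP.WV.t pCHR pLFT pHB
theorem pSIM : S_SIM := Pool.Agent.Helper25.EP.SIM.t pHB
theorem pTH : S_TH := Pool.Agent.Helper34.EP.TH.t pHB pRHO
theorem pNIL : S_NIL := Pool.Agent.Helper64.EP.NIL.t pHB pRHO
theorem pBLK : S_BLK := Pool.Agent.Helper15.EP.BLK.t pHB pSIM pTH pNIL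

/-- the theorem -/
theorem th_main : S_MAIN :=
  main Pool.Agent.Helper2.EP.FLD.t pHB pLFT pODD pCHR (Pool.Agent.Helper30.EP.REP.t pHB pSIM) pTH
    pNIL pBLK (Pool.Agent.Helper87.EP.CEN.t pHB pBLK) (Pool.Agent.Helper89.EP.EXI.t pHB)
    (Pool.Agent.Helper99.EP.SRC.t pHB pTH pNIL)
    (Pool.Agent.Helper18.EP.OBJ.t Pool.Agent.Helper36.EP.BRM.t) Pool.Agent.Helper63.EP.CNT.t pNUF

/-- `(∏ (p^j - 1))² ≥ p^(r²)` -/
theorem beta_sq (p : ℕ) (hp : 3 ≤ p) (r : ℕ) : (p ^ r) ^ r ≤ beta p r ^ 2 := by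
  unfold beta
  induction r with
  | zero => simp
  | succ r ih =>
    rw [Finset.prod_range_succ, mul_pow]
    have h1 : p ^ (2 * r + 1) ≤ (p ^ (r + 1) - 1) ^ 2 := by
      have h2 : 1 ≤ p ^ r := Nat.one_le_pow _ _ (by omega)
      obtain ⟨m, hm⟩ : ∃ m, p ^ (r + 1) = m + 1 := ⟨p ^ (r + 1) - 1, by
        have : 1 ≤ p ^ (r + 1) := Nat.one_le_pow _ _ (by omega)
        omega⟩
      rw [hm, Nat.add_sub_cancel]
      have h3 : p ^ (2 * r + 1) * p = (m + 1) ^ 2 := by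
        rw [← hm]
        ring
      have h4 : 3 ≤ m + 1 := by
        rw [← hm, pow_succ]
        nlinarith
      have h5 : p ^ (2 * r + 1) * 3 ≤ (m + 1) ^ 2 := by
        rw [← h3]
        exact Nat.mul_le_mul_left _ hp
      nlinarith
    calc (p ^ (r + 1)) ^ (r + 1) = (p ^ r) ^ r * p ^ (2 * r + 1) := by ring
      _ ≤ _ := Nat.mul_le_mul ih h1

end Pool.Agent.Helper47.EP
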