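import Pool.Agent.Helper47.EP.Defs

/-!
# Project EP (MP_5b9a11_al): statements of the packets, with proofs

THEOREM.  `p` an odd prime, `D` a finite `p`-group, `D → (Z/p)^r` onto: there is a block of a `p`-nilpotent
group with a defect group isomorphic to `D` and a multiplicity `m(Q_δ, P_γ) ≥ ∏_{j ≤ r} (p^j - 1)` of its
pointed fusion system.  Paper proof: MP_5b9a11_al_helper47.md in the store.

`E = Hs T A` is the Heisenberg group of `M = K^A` (`T : Dat p`: `K` of order `l²` with the alternating form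
`T.w` and the isometries `T.t j = ζ^j`, `j : ZMod p`), the torus `(Z/p)^A` acts on it (`ta j`), `C : Chr T R` a
character of `F_l` in `R`, `ee C A` the central idempotent, `ev C v = (v, 0) e`, `rho C j` implements `ta j`.
`x.coeff g` is the coefficient of `g`; for products `MonoidAlgebra.coeff_mul`, `single_mul_single`,
`coeff_single_mul`.. of Mathlib.  `red` (reduction of coefficients to the residue field) and facts on
idempotents: `Pool/Agent/Helper17/PF/Lift.lean`, `Alg.lean`, `Gen.lean`, `Rep.lean`.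
-/

set_option autoImplicit false

namespace Pool.Agent.Helper47.EP

open MonoidAlgebra IsLocalRing Pool.Agent.Helper17.PF

/-- PACKET FLD (the symplectic space `K`).
Proof.  Choose a prime `l > 2` with `l = -1` in `ZMod p` (`Nat.forall_exists_prime_gt_and_eq_mod`), so `l ≠ p`,
`p ∣ l + 1`.  `K = GaloisField l 2` (or any field with `l²` elements).  `ζ ∈ Kˣ` of order `p` (`Kˣ` is cyclic of
order `l² - 1`), `ζ^(l+1) = 1`.  `δ = x₀ - x₀^l` for some `x₀` with `x₀^l ≠ x₀`: `δ ≠ 0`, `δ^l = -δ` (`x^(l²) = x`).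
`w x y = Algebra.trace (ZMod l) K (δ * x * y^l)`, `Tr c = c + c^l` in `K` (or define `w` with values in the
subfield by this formula); `t j x = ζ^(j.val) * x`.
`alt`: `x^(l+1)` is in `F_l` and `Tr δ = δ + δ^l = 0`.  `nondeg`: `y ↦ y^l` is bijective, the trace form is
nondegenerate.  `inv`: `ζ^j (ζ^j)^l = 1`.  `inj`: `ζ^j ≠ 1` for `j ≠ 0`.
`gauss`: `y = -(ζ^j-1)/(ζ^k-1) x`.  With `N(x) = x^(l+1) ∈ F_l`: `w (ζ^j x) x = Tr(δ ζ^j) N(x) =
δ (ζ^j - ζ^(-j)) N(x)` (in `K`, `ζ^l = ζ^(-1)`), `N(ζ^j - 1) = (ζ^j-1)(ζ^(-j)-1) = -(ζ^j-1)² ζ^(-j)`,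
`(ζ^j-ζ^(-j))/N(ζ^j-1) = -(ζ^j+1)/(ζ^j-1)`; so the sum of the two terms is `c N(x)` with
`c = -δ N(ζ^j-1) ((ζ^j+1)/(ζ^j-1) + (ζ^k+1)/(ζ^k-1)) = -2 δ N(ζ^j-1) (ζ^(j+k)-1)/((ζ^j-1)(ζ^k-1))`,
`c = 0` iff `j + k = 0`.  `N : Kˣ → F_lˣ` is onto and `l + 1` to one (cyclic groups of orders `l²-1`, `l-1`). -/
def S_FLD : Prop := ∀ p : ℕ, p.Prime → p ≠ 2 → Nonempty (Dat p)

/-- PACKET KAP (one coordinate).
Proof.  (0) For `j ≠ 0` the map `x ↦ ζ^j x - x` of the finite group `K` is injective (`inj`), so bijective: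
`t j (dv T j y) - dv T j y = y`, and `dv T j (t j x - x) = x`; `ψ` is multiplicative, `ψ 0 = 1`.
(2) `j = 0`: both sides are `[s = y]`.  `j ≠ 0`: let `s - y = ζ^j x - x`; then `s - ζ^j y = ζ^j (x - y) - (x - y)`, and
`-w(ζ^j(x-y), x-y) + w(ζ^j y, ζ^j(x-y) - (x-y)) = -w(ζ^j x, x) + w(ζ^j x - x, y)`: expand, use
`w(ζ^j y, ζ^j x) = w(y,x) = -w(x,y)` (from `alt`) and `w(ζ^j y, ζ^j y) = 0`.
(3) `dv T j (t k y) = t k (dv T j y)` (`t j`, `t k` commute) and `inv`.  (4) `dv T j 0 = 0`.
(1) `j = 0` or `k = 0`: one term.  `j, k ≠ 0`: let `f s` be the left side.  Then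
`f (s - ζ^(j+k) y) ψ(w(ζ^(j+k) y, s - ζ^(j+k) y)) = f (s - y) ψ(w(s - y, y))` for all `s`, `y`  (*)
(say `X_j = ∑ kap j y e_y` in the algebra with `e_x e_y = ψ(w(x,y)) e_(x+y)`; (2) says `e_(ζ^j y) X_j = X_j e_y`, so
`e_(ζ^(j+k) y) X_j X_k = X_j e_(ζ^k y) X_k = X_j X_k e_y`; write this out with sums).
If `j + k = 0`: (*) gives `f s ψ(w(y,s)) = f s ψ(w(s,y))`, `f s = f s ψ(2 w(s,y))` for all `y`; sum over `y`: for
`s ≠ 0` the sum of `ψ(2w(s,y))` is `0` (`y ↦ 2 w(s,y)` is a nonzero homomorphism onto `F_l`, `sum_zero` with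
`c = 1`, fibres of the same size), and `card K = l²` is invertible, so `f s = 0`.
If `j + k ≠ 0`: take `y` with `s = ζ^(j+k) y - y` in (*) (with `s + y` instead of `s`): `f s = f 0 ψ(-w(ζ^(j+k) y, y))`.
`f 0 = ∑_y kap j y kap k (-y) = il² ∑_x ψ(-(w(ζ^j x,x) + w(ζ^k x', x')))`, `x' = dv T k (-(ζ^j x - x))`; by `gauss`:
if `j + k = 0` it is `il² l² = 1`, otherwise `il² (1 + (l+1) ∑_{z ≠ 0} ψ(-z)) = il² (1 - (l+1)) = -il`. -/
def S_KAP : Prop := ∀ (p : ℕ) [Fact p.Prime] (T : Dat p) (R : Type) [CommRing R] (C : Chr T R),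
  (∀ j k s, ∑ y, kap C j y * kap C k (s - y) * C.ψ (T.w y (s - y)) = kap C (j + k) s) ∧
  (∀ j s y, kap C j (s - T.t j y) * C.ψ (T.w (T.t j y) (s - T.t j y)) =
    kap C j (s - y) * C.ψ (T.w (s - y) y)) ∧
  (∀ j k y, kap C j (T.t k y) = kap C j y) ∧
  (∀ j, j ≠ 0 → kap C j 0 = -C.il)

/-- PACKET HB (the Heisenberg group algebra).
Proof.  `(0,z)(0,z') = (0,z+z')`, `(v,z) = (0,z)(v,0) = (v,0)(0,z)`, `(0,z)` is central, `(0,z) e = ψ(z) e`
(reindex the sum), so `e² = il ∑ ψ(-z) ψ(z) e = il l e = e`.  `(v,0)(v',0) = (0, Om v v') (v+v',0)`.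
(5) `ev C v = il ∑ ψ(-z) (v,z)`.  (6) `x = e x = ∑_g x_g g e = ∑_g x_g ψ(g.z) ev (g.v)`, compare the
coefficients at `(v,0)`: `x.coeff (v,0) = il ∑_z x.coeff (v,z) ψ(z)`.  (7) `mapRingHom` on `single`. -/
def S_HB : Prop := ∀ (p : ℕ) [Fact p.Prime] (T : Dat p) (A : Type) [Fintype A] [DecidableEq A]
  (R : Type) [CommRing R] (C : Chr T R),
  (ee C A * ee C A = ee C A) ∧
  (∀ x : MonoidAlgebra R (Hs T A), ee C A * x = x * ee C A) ∧
  (∀ g : Hs T A, single g (1 : R) * ee C A = C.ψ g.z • ev C g.v) ∧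
  (∀ v v' : A → T.K, ev C v * ev C v' = C.ψ (Om v v') • ev C (v + v')) ∧
  (∀ (v : A → T.K) (g : Hs T A), (ev C v).coeff g = if g.v = v then C.il * C.ψ (-g.z) else 0) ∧
  (∀ x : MonoidAlgebra R (Hs T A), ee C A * x = x →
    x = ∑ v : A → T.K, ((T.l : R) * x.coeff ⟨v, 0⟩) • ev C v) ∧
  (∀ (S : Type) [CommRing S] (f : R →+* S),
    MonoidAlgebra.mapRingHom (Hs T A) f (ee C A) = ee (C.map f) A ∧
    ∀ v : A → T.K, MonoidAlgebra.mapRingHom (Hs T A) f (ev C v) = ev (C.map f) v)

/-- PACKET RHO (the elements `ρ`; may assume KAP, HB).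
Proof.  (2) the coefficient of `ev 0 = e`.  (3) `ρ_j ρ_k = ∑_{v,v'} κ_j(v) κ_k(v') ψ(Om v v') ev (v+v')`; put
`s = v + v'`; the coefficient of `ev s` is `∑_v ∏_a (κ(j_a, v_a) κ(k_a, s_a - v_a) ψ(w(v_a, s_a - v_a))) =
∏_a ∑_y ..` (`Finset.prod_univ_sum`, `Fintype.piFinset_univ`; `ψ` of a sum is the product) `= ∏_a κ(j_a+k_a, s_a)`
by KAP (1).  (4) multiply with `e`; `single g 1 * e = ψ(g.z) ev g.v` (HB); so it says
`ev (ζ^j v) ρ_j = ρ_j ev v`; compare the coefficients of `ev s`, KAP (2) in every coordinate.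
(5) `y = ∑ c_w ev w`, `c_w = l y.coeff (w,0)` (HB (6)); `(ev v).coeff 1 = il [v = 0]`; the coefficient of `1` in
`ρ_j y` is `il ∑_w κ_j(-w) c_w ψ(Om (-w) w) = il ∑_w κ_j(-w) c_w`; for `c_w ≠ 0` and `j_a ≠ 0`: `w_a = 0`,
`κ(j_a, 0) = -il` (KAP (4)), for `j_a = 0`: `κ(0, -w_a) = [w_a = 0]`; so only `w = 0` contributes.
(6) KAP (3) and HB (5).  (7) HB (5): the coefficient of `ρ_j` at `g` is `κ_j(g.v) il ψ(-g.z)`, and
`κ(0, y) = 0` for `y ≠ 0`.  (8) HB (7); `(C.map f)` has the `kap` `f (kap C j y)`. -/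
def S_RHO : Prop := ∀ (p : ℕ) [Fact p.Prime] (T : Dat p) (A : Type) [Fintype A] [DecidableEq A]
  (R : Type) [CommRing R] (C : Chr T R),
  (∀ j : A → ZMod p, ee C A * rho C j = rho C j) ∧
  (rho C (0 : A → ZMod p) = ee C A) ∧
  (∀ j k : A → ZMod p, rho C j * rho C k = rho C (j + k)) ∧
  (∀ (j : A → ZMod p) (g : Hs T A),
    single (ta j g) (1 : R) * rho C j = rho C j * single g (1 : R)) ∧
  (∀ (j : A → ZMod p) (y : MonoidAlgebra R (Hs T A)), ee C A * y = y →
    (∀ g, y.coeff g ≠ 0 → ∀ a, j a ≠ 0 → g.v a = 0) →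
    (rho C j * y).coeff 1 =
      (-C.il) ^ (Finset.univ.filter fun a => j a ≠ 0).card * y.coeff 1) ∧
  (∀ (j k : A → ZMod p) (g : Hs T A), (rho C j).coeff (ta k g) = (rho C j).coeff g) ∧
  (∀ (j : A → ZMod p) (g : Hs T A), (rho C j).coeff g ≠ 0 → ∀ a, j a = 0 → g.v a = 0) ∧
  (∀ (S : Type) [CommRing S] (f : R →+* S) (j : A → ZMod p),
    MonoidAlgebra.mapRingHom (Hs T A) f (rho C j) = rho (C.map f) j)

/-- PACKET TR (traces of idempotents of group algebras over a field).
Proof.  The trace of the left multiplication with `x` on `kL` is `|L| x.coeff 1` (basis `single g 1`: the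
diagonal entry at `g` is `(x * single g 1).coeff g = x.coeff 1`).  For an idempotent the left multiplication is a
projection, its trace is the dimension of the range (`LinearMap.IsProj.trace`, or
`LinearMap.trace_eq_..`). -/
def S_TR : Prop := ∀ (k : Type) [Field k] (L : Type) [Group L] [Finite L] (g : MonoidAlgebra k L),
  g * g = g → (Nat.card L : k) * g.coeff 1 = (dm g : k)

/-- PACKET TRO (the same over a local domain).
Proof.  `X = i RL` (range of the left multiplication) is a direct summand of the free `R`-module `RL` of finite rank,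
so projective, so free (`R` local); its rank `m` is the trace: `|L| i.coeff 1 = m` (`LinearMap.IsProj.trace`).
`m = dim_k (red(i) kL)`, `k` the residue field: `RL = X ⊕ (1-i)RL`, bases of `X` and `(1-i)RL` together give a basis of
`RL`; their images in `kL` span `red(i) kL` and `(1 - red i) kL` (`red_surjective`), which have the sum of dimensions
`|L|`; so the two spanning sets of sizes `m`, `|L| - m` are bases.  (Or tensor with `k`.) -/
def S_TRO : Prop := ∀ (R : Type) [CommRing R] [IsDomain R] [IsLocalRing R] (L : Type) [Group L]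
  [Finite L] (i : MonoidAlgebra R L), i * i = i →
  (Nat.card L : R) * i.coeff 1 = (dm (red R L i) : R)

/-- PACKET MA (projective modules over the group ring of the group of order `p`).
Proof.  `X` becomes a module over `Λ = R[C_p]` (`MonoidAlgebra R (Multiplicative (ZMod p))` or
`R[x]/(x^p - 1)`), `g` acts as `z`.  `Λ` is a commutative local ring: the augmentation composed with `R → k` has as
kernel the ideal generated by the maximal ideal of `R` and `g - 1`; modulo the maximal ideal of `R` (contained in the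
Jacobson radical, `Λ` is finite over `R`) the element `g - 1` is nilpotent: `(g-1)^p = g^p - 1 = 0` in
characteristic `p`.  The maps `s x = ∑_{k<p} g^k ⊗ a z^(-k) x` (to the free `Λ`-module `Λ ⊗_R X`, or `Λ^m` with a basis of
`X`) and `t (g^k ⊗ x) = z^k x` are `Λ`-linear, `t s = 1` by hypothesis (`z^(-k) = z^(p-k)`).  So `X` is projective over `Λ`,
finitely generated, hence free over the local ring `Λ`; `g` has trace `0` on `Λ` (basis `1, g, .., g^(p-1)`), so the trace
of `z` on `X` over `R` is `0`. -/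
def S_MA : Prop := ∀ (p : ℕ) [Fact p.Prime] (R : Type) [CommRing R] [IsLocalRing R],
  (p : R) ∈ maximalIdeal R → ∀ (X : Type) [AddCommGroup X] [Module R X] [Module.Free R X]
  [Module.Finite R X] (z a : Module.End R X), z ^ p = 1 →
  ∑ k ∈ Finset.range p, z ^ k * a * z ^ (p - k) = 1 → LinearMap.trace R X z = 0

/-- PACKET MB (stable equivalence; may assume MA).
Proof.  Notation `tr(a) = ∑_{k<p} z^k a z^(p-k)` (for maps between two such modules too); `u tr(a) v = tr(u a v)` for `u`,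
`v` commuting with the `z`'s.  `F₀ = (Fin p → X)` or `ZMod p → X` with `z₀` = cyclic shift: `(z₀ f)(k) = f(k-1)` (this is
`R[C_p] ⊗ X`): `z₀^p = 1`, trace of `z₀` is `0` (no fixed index; `p ≥ 2`), and `1_{F₀} = tr(e₀)`, `e₀` the projection to
the component `0`.  `s x = (k ↦ a z^(-k) x)`, `t f = ∑_k z^k f(k)` commute with the `z`'s and `t s = tr(a) = 1 - β α`.
`Z = Y × F₀`, `z_Z = z_Y × z₀`, `σ = (α, s) : X → Z`, `τ (y, f) = β y + t f : Z → X`, `τ σ = 1`.  `π = 1 - σ τ` is an
idempotent endomorphism of `Z` commuting with `z_Z`.  `π = tr(c)` for some `c`: the entry `Y → Y` of `π` is `1 - α β = tr(b)`,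
and all other entries factor through `F₀`, whose identity is `tr(e₀)`.  `C = range π` is projective, so free (`R` local);
with `z_C`, `a_C = π c|_C` MA gives trace `0` for `z_C`.  `Z = range(σ τ) ⊕ C`, `range(σ τ) ≅ X` (via `σ`, `τ`) compatible with
the `z`'s: `trace z_Z = trace z_X + trace z_C`, and `trace z_Z = trace z_Y + 0`. -/
def S_MB : Prop := ∀ (p : ℕ) [Fact p.Prime] (R : Type) [CommRing R] [IsLocalRing R],
  (p : R) ∈ maximalIdeal R → ∀ (X Y : Type) [AddCommGroup X] [Module R X] [Module.Free R X]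
  [Module.Finite R X] [AddCommGroup Y] [Module R Y] [Module.Free R Y] [Module.Finite R Y]
  (zX a : Module.End R X) (zY b : Module.End R Y) (α : X →ₗ[R] Y) (β : Y →ₗ[R] X),
  zX ^ p = 1 → zY ^ p = 1 → zY ∘ₗ α = α ∘ₗ zX → zX ∘ₗ β = β ∘ₗ zY →
  1 - β ∘ₗ α = ∑ k ∈ Finset.range p, zX ^ k * a * zX ^ (p - k) →
  1 - α ∘ₗ β = ∑ k ∈ Finset.range p, zY ^ k * b * zY ^ (p - k) →
  LinearMap.trace R X zX = LinearMap.trace R Y zY

/-- PACKET TAU (traces `coeff_1 (ρ i)` depend only on the Brauer quotient; may assume MB, HB, RHO).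
Proof.  Let `E = Hs T A`, `σ = ta j` (`σ^p = 1`), `ρ = rho C j`, `ρ^p = rho C (p j) = e`, `ρ⁻¹ := rho C (-j)`.
(1) `i - i' = ∑_{k<p} σ^k(y)` for some `y ∈ RE` (`σ^k(y)` = `mapDomain`, coefficients `y.coeff (σ^(-k) g)`): the element
`i - i'` is `σ`-invariant; its coefficients at the fixed elements `g` are in the maximal ideal, so `= p c_g`, take
`y_g = c_g`; on every orbit of length `p` take `y` = the coefficient at one element of the orbit and `0` at the others
(choose representatives; the orbits of `σ` have length `1` or `p`).  (2) Multiply by `e` on both sides (`e` is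
`σ`-invariant): `y = e y`.  (3) For `y = e y`: `σ^k(y) = ρ^k y ρ^(-k)` by RHO (4) (`single (σ g) 1 * ρ = ρ * single g 1`,
linear in `g`).  `i`, `i'` commute with `ρ`.  (4) MB with `X = i RE`, `Y = i' RE` (ranges of left multiplications, direct
summands of `RE`, so free), `z` = left multiplication with `ρ`, `α x = i' x`, `β x = i x`: `1 - β α` is the left multiplication
with `i (i - i') = ∑ ρ^k (i y) ρ^(-k)`, and `1 - α β` with `i' (i' - i)`.  `z^p` = left multiplication with `e` = `1` on `X`.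
(5) The trace of `z` on `X` is the trace of the left multiplication with `ρ i` on `RE`, which is `|E| (ρ i).coeff 1`
(see TR; for `f : RE → RE` with range in `X` the trace of `f` is the trace of `f|_X`, `LinearMap.trace_restrict..`,
or: `trace(ρ i) = trace(L_i L_ρ|_X ..)`, cyclicity of the trace for `X → RE → X`).  (6) `|E|` is a power of `l`, invertible
in `R` (`C.il`). -/
def S_TAU : Prop := ∀ (p : ℕ) [Fact p.Prime] (T : Dat p) (A : Type) [Fintype A] [DecidableEq A]
  (R : Type) [CommRing R] [IsLocalRing R] (C : Chr T R), maximalIdeal R = Ideal.span {(p : R)} →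
  ∀ (j : A → ZMod p) (i i' : MonoidAlgebra R (Hs T A)), i * i = i → i' * i' = i' →
  ee C A * i = i → ee C A * i' = i' →
  (∀ g, i.coeff (ta j g) = i.coeff g) → (∀ g, i'.coeff (ta j g) = i'.coeff g) →
  (∀ g, ta j g = g → residue R (i.coeff g) = residue R (i'.coeff g)) →
  (rho C j * i).coeff 1 = (rho C j * i').coeff 1

/-- PACKET BRH (the Brauer homomorphism).
Proof.  The coefficient of `x y` at a fixed element `h` is the sum of `x_g y_g'` over the pairs with `g g' = h`; `σ` acts on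
this finite set of pairs (`σ h = h`) and preserves the terms (`x`, `y` are invariant); `σ^p = 1`, so the nontrivial orbits
have `p` elements and contribute `p · (..) = 0`; the fixed pairs give the coefficient of the product of the restrictions.
Compare `sum_fixed` in `Pool/Agent/Helper17/PF/Grp.lean`, or `ZMod`-actions and
`Function.Involutive`-type lemmas (`Finset.sum_..`), `MulAction.card_modEq_card_fixedPoints`. -/
def S_BRH : Prop := ∀ (p : ℕ) [Fact p.Prime] (F : Type) [Field F] [CharP F p] (L : Type) [Group L]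
  [Finite L] (σ : L ≃* L), (∀ g, (σ^[p]) g = g) → ∀ x y : MonoidAlgebra F L,
  (∀ g, x.coeff (σ g) = x.coeff g) → (∀ g, y.coeff (σ g) = y.coeff g) →
  rs {g | σ g = g} (x * y) = rs {g | σ g = g} x * rs {g | σ g = g} y

/-- PACKET LFT (lifting of invariant idempotents; may assume HB).
Proof.  Choose `y` with `red y = i`, invariant under all `ta k`, `k ∈ J`, and supported where `i` is: choose a lift of
every value, `y.coeff g = s (i.coeff g)` with a section `s : k → R` of the residue map with `s 0 = 0`.  Newton iteration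
`f ↦ 3 f² - 2 f³` as in `lift_idem` (`Pool/Agent/Helper17/PF/Lift.lean`, same proof, `exists_limit`): the set of the
`J`-invariant elements with support in `B` is closed under sums, products (the elements `g` with `g.v a = 0` for `a ∉ B` form a
subgroup) and limits.  The limit `f` is idempotent with `red f = i`.  Finally replace `f` by `e f`: `e` is central, invariant,
`red e = e` (HB (7)), supported on `g.v = 0`. -/
def S_LFT : Prop := ∀ (p : ℕ) [Fact p.Prime] (T : Dat p) (A : Type) [Fintype A] [DecidableEq A]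
  (R : Type) [CommRing R] [IsLocalRing R] [IsAdicComplete (maximalIdeal R) R] (C : Chr T R)
  (J : Set (A → ZMod p)) (B : Set A) (i : MonoidAlgebra (ResidueField R) (Hs T A)),
  Ok (C.map (residue R)) J B i → ∃ i', Ok C J B i' ∧ red R (Hs T A) i' = i

/-- PACKET ODD (the representatives of the hyperplanes).
Proof.  (1) For `u ∉ L` the set `{a ∈ AL L : pr a u ≠ 0}` is in bijection with the set of all homomorphisms (vectors)
`h : Fin r → ZMod p` with `h · v = 0` for `v ∈ L` and `h · u = 1` (`a ↦ (pr a u)⁻¹ a`, inverse: divide by the first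
nonzero coordinate), which is a coset of `(L + ⟨u⟩)^⊥`; it is not empty, since `u ∉ L` (`L` is a `ZMod p`-subspace), so its
cardinality is a power of `p`, odd as `p` is odd.  (2) the unit vector at the first nonzero coordinate of `a`.
(3) `L + ⟨u⟩` has `p |L|` elements (`u` has order `p` modulo `L`).  (4) `a` vanishes on `L + ⟨u⟩` iff on `L` and at `u`. -/
def S_ODD : Prop := ∀ (p : ℕ) [Fact p.Prime] (r : ℕ), p ≠ 2 →
  (∀ (L : AddSubgroup (Fin r → ZMod p)) (u : Fin r → ZMod p), u ∉ L →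
    Odd (Nat.card {a : AA p r // a ∈ AL L ∧ pr a u ≠ 0})) ∧
  (∀ a : AA p r, ∃ u, pr a u ≠ 0) ∧
  (∀ (L : AddSubgroup (Fin r → ZMod p)) (u : Fin r → ZMod p), u ∉ L →
    Nat.card (L ⊔ AddSubgroup.zmultiples u : AddSubgroup (Fin r → ZMod p)) = p * Nat.card L) ∧
  (∀ (L : AddSubgroup (Fin r → ZMod p)) (u : Fin r → ZMod p) (a : AA p r),
    a ∈ AL (L ⊔ AddSubgroup.zmultiples u) ↔ a ∈ AL L ∧ pr a u = 0)

/-- PACKET WV (Witt vectors).
Proof.  `R = WittVector p F`: domain, local, `p` generates the maximal ideal, characteristic `0`, complete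
(`WittVector.isAdicCompleteIdealSpanP`, `Mathlib/RingTheory/WittVector/{Complete, DiscreteValuationRing}.lean`), the
residue field is `F` (`WittVector.constantCoeff`, kernel generated by `p` as `F` is perfect). -/
def S_WV : Prop := ∀ (p : ℕ) [Fact p.Prime] (F : Type) [Field F] [IsAlgClosed F] [CharP F p],
  ∃ (R : Type) (_ : CommRing R) (_ : IsDomain R) (_ : IsLocalRing R)
    (_ : IsAdicComplete (maximalIdeal R) R), CharZero R ∧ maximalIdeal R = Ideal.span {(p : R)} ∧
    Nonempty (ResidueField R ≃+* F)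

/-- PACKET CHR (characters).
Proof.  (1) `l ≠ 0` in `F`; `X^l - 1` has `l` different roots in `F`, take a primitive one `ζ`, `ψ z = ζ^(z.val)`
(`ZMod` powers: `AddChar.zmodChar`), `∑_z ψ(c z) = 0` for `c ≠ 0` (geometric sum, or `AddChar.sum_eq_zero_..`).
(2) `R` is henselian (`IsAdicComplete.henselianRing`): the simple root `ψ̄ 1` of `X^l - 1` lifts to a root `ζ` in `R`
(`l` is a unit of `R`, as its residue is one); `ψ z = ζ^(z.val)`; `∑_z ψ(c z) = 0`: the sum `s` satisfies
`(ψ(c) - 1) s = 0` and `ψ(c) - 1` is a unit (its residue is `≠ 0` since `ψ̄(c) ≠ 1`: otherwise `∑_z ψ̄(c z) = l ≠ 0`).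
`il = l⁻¹`.  The last equality: a structure extensionality (`ψ` equal at `1`, `il` unique). -/
def S_CHR : Prop := ∀ (p : ℕ) [Fact p.Prime] (T : Dat p),
  (∀ (F : Type) [Field F] [IsAlgClosed F] [CharP F p], Nonempty (Chr T F)) ∧
  (∀ (R : Type) [CommRing R] [IsLocalRing R] [IsAdicComplete (maximalIdeal R) R]
    (C : Chr T (ResidueField R)), ∃ C' : Chr T R, C'.map (residue R) = C)

/-- PACKET SIM (`FE e` is a simple algebra with centre `F e`; may assume HB).
Proof.  Write `x = ∑ c_v ev v` (HB (6)).  `ev w` is invertible in `FEe` (`ev w * ev (-w) = e`) and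
`ev w * ev v * ev (-w) = ψ(2 Om w v) ev v`.  (1) If `x` commutes with all `ev w`, then `c_v (ψ(2 Om w v) - 1) = 0` for all `w`;
for `v ≠ 0` there is `w` with `Om w v ≠ 0` (one coordinate, `nondeg`, `alt`), even with `ψ(2 Om w v) ≠ 1` (`∑_z ψ(z) = 0`, so
some value is `≠ 1`; scale `w`: `Om (n w) v = n Om w v`), so `c_v = 0`.  (2) If `x ≠ 0`, some `c_v ≠ 0`; `y = c_v⁻¹ x ev (-v)` has the
coefficient `1` at `e`; `∑_w ev w * y * ev (-w) = |M| e` (`∑_w ψ(2 Om w v) = 0` for `v ≠ 0`), `|M| = l^(2|A|)` is invertible.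
So `e` is a sum of elements `a x b`. -/
def S_SIM : Prop := ∀ (p : ℕ) [Fact p.Prime] (T : Dat p) (A : Type) [Fintype A] [DecidableEq A]
  (F : Type) [Field F] (C : Chr T F),
  (∀ x : MonoidAlgebra F (Hs T A), ee C A * x = x → (∀ v : A → T.K, ev C v * x = x * ev C v) →
    ∃ c : F, x = c • ee C A) ∧
  (∀ x : MonoidAlgebra F (Hs T A), ee C A * x = x → x ≠ 0 →
    ∃ a b : (A → T.K) → MonoidAlgebra F (Hs T A), ∑ w, a w * x * b w = ee C A)

/-- PACKET REP (the simple module; may assume HB, SIM, TR).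
Proof.  `I` = a minimal nonzero left ideal of `FE` contained in the left ideal `FE e` (finite-dimensional); it is a simple
`FE`-module; `FE → End_F(I)` is onto (`lsmul_surjective` in `Pool/Agent/Helper17/PF/Rep.lean`; see `exists_rep` there for the
use with `Fin d → F`), `e` acts as `1` (`e x = x` on `FE e`), and it is injective on `FE e`: the kernel is a two-sided ideal, if it
contains `x = e x ≠ 0` then it contains `e` by SIM (2), but `e` acts as `1 ≠ 0`.  So `dim(FE e) = d²`, `d = dim I`, and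
`dim(FE e) = l^(2|A|)` (basis `ev v`, HB (5), (6); `card K = l²`): `d = l^|A|`.  (4) `FE e → End(F^d)`, `y ↦ ρ y`, is an isomorphism which maps
`x FE e = x FE` onto `ρ(x) End(F^d)`, of dimension `d · rank ρ(x)` (`End(F^d) = (F^d)^d` by columns: the matrices whose columns
are in the range). -/
def S_REP : Prop := ∀ (p : ℕ) [Fact p.Prime] (T : Dat p) (A : Type) [Fintype A] [DecidableEq A]
  (F : Type) [Field F] [IsAlgClosed F] (C : Chr T F),
  ∃ ρ : MonoidAlgebra F (Hs T A) →ₐ[F] Module.End F (Fin (T.l ^ Fintype.card A) → F),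
    Function.Surjective ρ ∧ ρ (ee C A) = 1 ∧
    (∀ x, ee C A * x = x → ρ x = 0 → x = 0) ∧
    (∀ x, ee C A * x = x → dm x = T.l ^ Fintype.card A * Module.finrank F (LinearMap.range (ρ x)))

/-- PACKET TH (the map `θ`; may assume HB, RHO).
Proof.  `th` is linear and `th (single (x,d) 1) = single x 1 * ρ(d)`.  (1) for basis elements: `(x,d)(y,d') = (x · d(y), dd')`,
`d(y) = ta (π d) y`, and `x ρ(d) y ρ(d') = x d(y) ρ(d) ρ(d')` by RHO (4) (`ρ * single y 1 = single (ta y) 1 * ρ`), RHO (3).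
(2) `ρ(0) = e`.  (3) from (1): `th (single d 1) = ρ(d)`, and `ρ(d) z ρ(-d)` has at `ta(π d) g` the coefficient of `z` at `g` if
`z = e z`: RHO (4), `ρ(d) ρ(-d) = e`.  (4) RHO (1) and `e` is central.  (5) HB (7), RHO (8). -/
def S_TH : Prop := ∀ (p : ℕ) [Fact p.Prime] (T : Dat p) (A : Type) [Fintype A] [DecidableEq A]
  (R : Type) [CommRing R] (C : Chr T R) (D : Type) [Group D] [Finite D]
  (π : D →* Multiplicative (A → ZMod p)),
  (∀ x y, th π C (x * y) = th π C x * th π C y) ∧
  (∀ y : MonoidAlgebra R (Hs T A), th π C (inE π R T y) = y * ee C A) ∧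
  (∀ (d : D) (x : MonoidAlgebra R (GG T A π)) (g : Hs T A),
    (th π C (single (SemidirectProduct.inr d) 1 * x * single (SemidirectProduct.inr d)⁻¹ 1)).coeff
      (ta (Multiplicative.toAdd (π d)) g) = (th π C x).coeff g) ∧
  (∀ x, ee C A * th π C x = th π C x) ∧
  (∀ (S : Type) [CommRing S] (f : R →+* S) (x : MonoidAlgebra R (GG T A π)),
    MonoidAlgebra.mapRingHom (Hs T A) f (th π C x) =
      th π (C.map f) (MonoidAlgebra.mapRingHom (GG T A π) f x)) ∧
  (∀ x y, th π C (x + y) = th π C x + th π C y) ∧ (∀ (c : R) x, th π C (c • x) = c • th π C x) ∧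
  th π C 1 = ee C A

/-- PACKET NIL (idempotents killed by `θ`; may assume HB, RHO, TH).
Proof.  `ē = inE e`, `d' = inE(ρ(-d)) · d` for `d ∈ D` (`d` = `single (inr d) 1`).  (a) `d' y = y d'` for `y ∈ inE(FE e)`:
`d y d⁻¹ = inE (ta(π d) y)` and RHO (4).  (b) `(d₁ d₂)' = d₁' d₂'` (`ρ` is torus-invariant, RHO (6), so commutes with the `d`'s;
RHO (3)), `1' = ē`.  (c) every `x` with `ē x = x` is `∑_d y_d d'` with `y_d ∈ inE(FE e)`: `x = ∑_d (∑_{x'} ..) d`, `d = ē d + ..`,
`ē d = inE(ρ(d)) d'`.  (d) `θ(d') = e`, so `θ(x) = ∑ y_d` and if it is `0`: `x = ∑_d y_d (d' - ē)`.  (e) The map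
`F[D] → FG`, `d ↦ d'` is multiplicative; the augmentation ideal `I` of `F[D]` (`D` a `p`-group, characteristic `p`) is nilpotent,
`I^N = 0` (induction on `|D|` with a central element of order `p`: `(c-1)^p = 0`, or: `F[D]` has only one simple module,
`IsPGroup` fixed points; search the team for a proved version); `x^N` is a sum of elements
`y (d₁' - ē) ⋯ (d_N' - ē) = 0`.  So `x = x^N = 0`. -/
def S_NIL : Prop := ∀ (p : ℕ) [Fact p.Prime] (T : Dat p) (A : Type) [Fintype A] [DecidableEq A]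
  (F : Type) [Field F] [CharP F p] (C : Chr T F) (D : Type) [Group D] [Finite D], IsPGroup p D →
  ∀ (π : D →* Multiplicative (A → ZMod p)) (x : MonoidAlgebra F (GG T A π)), x * x = x →
  inE π F T (ee C A) * x = x → th π C x = 0 → x = 0

/-- PACKET BLK (the blocks; may assume HB, RHO, SIM, TH, NIL).
Proof.  (1) over a field `F`: `ē = inE e` is central (`e` is central in `FE` and torus-invariant), idempotent, `≠ 0`.
`f` a central idempotent with `ē f = f`: `θ f` is idempotent, `e θ(f) = θ(f)` and commutes with all `y ∈ FE e`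
(`y = θ(inE y)`, TH), so `θ f = c e` (SIM), `c = 0` or `1`; if `c = 0`, NIL; if `c = 1`: `θ(ē - f) = 0`, NIL for the idempotent
`ē - f`.  (2) over `𝒪`: `f` central idempotent with `ē f = f`: `red f` is a central idempotent (`red_surjective`) below `red ē`
(`= inE e` for the residue field), so `red f = 0` or `red f = red ē` by (1), and `idem_zero` for `f` resp. `ē - f`. -/
def S_BLK : Prop := ∀ (p : ℕ) [Fact p.Prime] (T : Dat p) (A : Type) [Fintype A] [DecidableEq A]
  (D : Type) [Group D] [Finite D], IsPGroup p D → ∀ (π : D →* Multiplicative (A → ZMod p)),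
  (∀ (F : Type) [Field F] [CharP F p] (C : Chr T F), IsBlock (inE π F T (ee C A))) ∧
  (∀ (𝒪 : Type) [CommRing 𝒪] [IsLocalRing 𝒪] [IsAdicComplete (maximalIdeal 𝒪) 𝒪]
    [CharP (ResidueField 𝒪) p] (C : Chr T 𝒪), IsBlock (inE π 𝒪 T (ee C A)))

/-- PACKET CEN (the blocks of the centralisers; may assume HB, BLK).
Proof.  `F` = residue field, `ē = inE e`.  (1) `C_G(1) = G` (as a group: `Subgroup.centralizer (⊥ : Set) = ⊤`), and `br_1(ē)` is
the element `inE e` over `F` transported along `G ≅ C_G(1)`; BLK (1); transport of `IsBlock` along an isomorphism of groups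
(`MonoidAlgebra.domCongr`).  (2) `C_G(D)`, `D = DD`: `(x, d)` commutes with all `inr d'` iff `ta(π d') x = x` for all `d'` and `d`
is central in `D`.  By hypothesis for every `a` some `π d'` has `a`-component `≠ 0`, so `x.v a = 0` (`inj`): `x = (0, z)`.  So
`C_G(D) = {((0,z), d) : d ∈ Z(D)}`, a commutative group.  `br_D(ē)` is the sum `il ∑ ψ(-z) (0,z)`.  An idempotent `f` of
`F[C_G(D)]` with `br_D(ē) f = f` is `br_D(ē) f'` with `f'` supported on `d ∈ Z(D)` (`(0,z) br_D(ē) = ψ(z) br_D(ē)`), and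
`f^(p^N) = br_D(ē)(∑ f'_d^(p^N) d^(p^N)) = c br_D(ē)` for `p^N = |D|` (commutative, characteristic `p`), and `f = f^(p^N)`, so
`f = c br_D(ē)`, `c² = c`.  Everything is central as the group is commutative; `br_D(ē) ≠ 0`: coefficient `il` at `1`. -/
def S_CEN : Prop := ∀ (p : ℕ) [Fact p.Prime] (T : Dat p) (A : Type) [Fintype A] [DecidableEq A]
  (D : Type) [Group D] [Finite D], IsPGroup p D → ∀ (π : D →* Multiplicative (A → ZMod p)),
  (∀ a, ∃ d, Multiplicative.toAdd (π d) a ≠ 0) →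
  ∀ (𝒪 : Type) [CommRing 𝒪] [IsLocalRing 𝒪] [IsAdicComplete (maximalIdeal 𝒪) 𝒪]
    [CharP (ResidueField 𝒪) p] (C : Chr T 𝒪),
  IsBlock (br (⊥ : Subgroup (GG T A π)) (inE π 𝒪 T (ee C A))) ∧
  IsBlock (br (DD π T) (inE π 𝒪 T (ee C A)))

/-- PACKET BRM (the Brauer map is multiplicative on fixed points).
Proof.  As BRH, but for the action of the `p`-group `P` by conjugation: the coefficient of `x y` at `h ∈ C_G(P)` is the sum
over the pairs `(g, g')` with `g g' = h`; `P` acts by simultaneous conjugation, the residues of the terms are invariant, the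
orbits which are not fixed points have sizes divisible by `p` (see `sum_fixed` in `Pool/Agent/Helper17/PF/Grp.lean`), the fixed
pairs are the pairs in `C_G(P)`. -/
def S_BRM : Prop := ∀ (p : ℕ) [Fact p.Prime] (𝒪 : Type) [CommRing 𝒪] [IsLocalRing 𝒪]
  [CharP (ResidueField 𝒪) p] (G : Type) [Group G] [Finite G] (P : Subgroup G), IsPGroup p P →
  ∀ x y : MonoidAlgebra 𝒪 G,
  (∀ u ∈ P, single u (1 : 𝒪) * x * single u⁻¹ (1 : 𝒪) = x) →
  (∀ u ∈ P, single u (1 : 𝒪) * y * single u⁻¹ (1 : 𝒪) = y) → br P (x * y) = br P x * br P y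

/-- PACKET EXI (a primitive invariant idempotent; may assume HB).
Proof.  The set `S = {x : e x = x, J-invariant}` is a finite-dimensional subalgebra of `FE` with the unit element `e`.
Among the sets of pairwise orthogonal nonzero idempotents of `S` with sum `e` take one with the maximal number of elements
(they are linearly independent; see the proof of `exists_decomp` in `Pool/Agent/Helper17/PF/Lift.lean`); its elements are
primitive idempotents of `S`.  `e.coeff 1 = il ≠ 0` (HB (5) with `v = 0`, `ev 0 = e`), so one of them has a coefficient `≠ 0` at `1`. -/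
def S_EXI : Prop := ∀ (p : ℕ) [Fact p.Prime] (T : Dat p) (A : Type) [Fintype A] [DecidableEq A]
  (F : Type) [Field F] (C : Chr T F) (J : Set (A → ZMod p)),
  ∃ i : MonoidAlgebra F (Hs T A),
    IsPrimitiveIdempotent {x : MonoidAlgebra F (Hs T A) | ee C A * x = x ∧ IJ J x} i ∧
    i.coeff 1 ≠ 0

/-- PACKET SRC (defect group and source idempotent; may assume HB, RHO, TH, NIL).
Proof.  `ē = inE e`.  (1) `D` is a `p`-group, `br_D(ē)` has the coefficient `residue(il) ≠ 0` at `1` (`ee.coeff 1 = il`); a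
`p`-subgroup `P ≥ D` of `G` is `D`: `|G| = |E| |D|` with `|E|` a power of `l` (`card K = l²`), prime to `p`.
(2) `i' = inE i` is in the fixed points: `i' ē = i'` and for `d ∈ D`: `d i' d⁻¹ = inE(ta(π d) i) = i'` as `i` is invariant under
`ta(π d)` (hypothesis: `J` contains all `π d`).  Nonzero idempotent.  Primitive: `f` an idempotent in the fixed points with
`i' f = f = f i'`; let `f₀ = θ(red f)` (over the residue field): idempotent, `e f₀ = f₀`, invariant under `ta(π d)` (TH (3), as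
`d f d⁻¹ = f`) for all `d`, so `IJ (range π)`, and `i_F f₀ = f₀ = f₀ i_F` with `i_F = red i = θ(red i')` (TH (2)).  As `i_F` is
primitive in `{x | e x = x, IJ J x}`, `J = range π`: `f₀ = 0` or `f₀ = i_F`.  By NIL (for `red f` resp. `red(i' - f)`, which are
idempotents below `ē`) `red f = 0` or `red (i' - f) = 0`, and `idem_zero`.  `br_D(i')` has the coefficient `residue(i.coeff 1) ≠ 0`
at `1`. -/
def S_SRC : Prop := ∀ (p : ℕ) [Fact p.Prime] (T : Dat p) (A : Type) [Fintype A] [DecidableEq A]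
  (D : Type) [Group D] [Finite D], IsPGroup p D → ∀ (π : D →* Multiplicative (A → ZMod p))
  (𝒪 : Type) [CommRing 𝒪] [IsLocalRing 𝒪] [IsAdicComplete (maximalIdeal 𝒪) 𝒪]
    [CharP (ResidueField 𝒪) p] (C : Chr T 𝒪),
  IsDefectGroup p (inE π 𝒪 T (ee C A)) (DD π T) ∧
  ∀ i : MonoidAlgebra 𝒪 (Hs T A), i * i = i → ee C A * i = i →
    IJ (Set.range fun d => Multiplicative.toAdd (π d)) i →
    IsPrimitiveIdempotent {x : MonoidAlgebra (ResidueField 𝒪) (Hs T A) |
      ee (C.map (residue 𝒪)) A * x = x ∧ IJ (Set.range fun d => Multiplicative.toAdd (π d)) x}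
      (red 𝒪 (Hs T A) i) →
    (red 𝒪 (Hs T A) i).coeff 1 ≠ 0 →
    IsSourceIdempotent (inE π 𝒪 T (ee C A)) (DD π T) (inE π 𝒪 T i)

/-- PACKET OBJ (points and objects; general; may assume BRM).
Proof.  (1) `γ` = the class of `i`: a point.  `j = u i v ∈ γ`, `u`, `v` in the fixed points, `u v = v u = b`: `br_D` is multiplicative on
the `D`-fixed elements (BRM), so `br(i) = br(v) br(j) br(u)` (`v j u = v u i v u = b i b = i`), so `br(j) ≠ 0`.  `D ≤ D`, and
`br_D(i) br_D(b) = br_D(i b) = br_D(i)`, `br_D(j) br_D(b) = br_D(j)`.  (2) the same for `P = ⊥`, where `br_⊥` is the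
reduction of the coefficients (injective on idempotents up to `idem_zero`: `br_⊥(j) = 0` means `red j = 0`, so `j = 0`,
`e₀ = v j u = 0`; see the proof of `main_gen` in `Pool/Agent/Helper17/PF/Gen.lean`).  `⊥ ≤ D`. -/
def S_OBJ : Prop := ∀ (p : ℕ) [Fact p.Prime] (𝒪 : Type) [CommRing 𝒪] [IsLocalRing 𝒪]
  [IsAdicComplete (maximalIdeal 𝒪) 𝒪] [CharP (ResidueField 𝒪) p] (G : Type) [Group G] [Finite G]
  (b i e₀ : MonoidAlgebra 𝒪 G) (D : Subgroup G), IsPGroup p D → IsBlock b →
  IsSourceIdempotent b D i → IsBlock (br (⊥ : Subgroup G) b) → IsBlock (br D b) →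
  IsPrimitiveIdempotent (fixedPoints b ⊥) e₀ →
  IsObject b D i D {j | ∃ u ∈ fixedPoints b D, ∃ v ∈ fixedPoints b D, u * v = b ∧ v * u = b ∧
    j = u * i * v} ∧
  IsObject b D i ⊥ {j | ∃ u ∈ fixedPoints b ⊥, ∃ v ∈ fixedPoints b ⊥, u * v = b ∧ v * u = b ∧
    j = u * e₀ * v}

/-- PACKET CNT (the multiplicity is at least the rank; general block theory; may assume nothing).
Proof.  (1) There is a decomposition `i = ∑_{e ∈ s} e` into pairwise orthogonal primitive idempotents of `𝒪G`: as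
`exists_decomp` (same proof with `i` instead of `1`; or: take a finite set of pairwise orthogonal nonzero idempotents below `i` with
sum `i` and maximal cardinality).  `e ∈ s` satisfies `e b = e i b = e i = e` (`i b = i`), so it is a primitive idempotent of
`fixedPoints b ⊥` (`b` central; `single 1 1 * x * single 1⁻¹ 1 = x`).  (2) The images `ρ(red e)` have rank `≤ 1`
(`IsPrim.finrank_range_le_one`, `prim_red`), so `rank ρ(red i) ≤ ∑ rank ρ(red e) ≤` the number of the `e ∈ s` with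
`ρ(red e) ≠ 0`.  By hypothesis `hn` all `e ∈ s` have `ρ(red e) ≠ 0`.  (3) They are all conjugate under the units of
`fixedPoints b ⊥` to one of them, `e₀` (`link`, `conj_of_link` give `u` with `u² = 1`, `e = u e₀ u`; use `u b`: `(ub)(ub) = b`).
`s` is not empty as `i ≠ 0`. -/
def S_CNT : Prop := ∀ (𝒪 : Type) [CommRing 𝒪] [IsLocalRing 𝒪] [IsAdicComplete (maximalIdeal 𝒪) 𝒪]
  (G : Type) [Group G] [Finite G] (b i : MonoidAlgebra 𝒪 G), IsBlock b → i * i = i → i ≠ 0 →
  i * b = i → ∀ (n : ℕ)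
  (ρ : MonoidAlgebra (ResidueField 𝒪) G →ₐ[ResidueField 𝒪]
    Module.End (ResidueField 𝒪) (Fin n → ResidueField 𝒪)), Function.Surjective ρ →
  (∀ e : MonoidAlgebra 𝒪 G, e * e = e → e * b = e → ρ (red 𝒪 G e) = 0 → e = 0) →
  ∃ (s : Finset (MonoidAlgebra 𝒪 G)) (e₀ : MonoidAlgebra 𝒪 G), e₀ ∈ s ∧
    (∀ e ∈ s, IsPrimitiveIdempotent (fixedPoints b ⊥) e) ∧
    (∀ e ∈ s, ∀ f ∈ s, e ≠ f → e * f = 0) ∧ ∑ e ∈ s, e = i ∧
    (∀ e ∈ s, ∃ u ∈ fixedPoints b ⊥, ∃ v ∈ fixedPoints b ⊥, u * v = b ∧ v * u = b ∧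
      e = u * e₀ * v) ∧
    Module.finrank (ResidueField 𝒪) (LinearMap.range (ρ (red 𝒪 G i))) ≤ s.card

/-! ### the assembly (helper47) -/

/-- NUM (helper47): the inequality (4.1) of the paper -/
def S_NUM : Prop := ∀ (p : ℕ) [Fact p.Prime] (r : ℕ), p ≠ 2 → ∀ (T : Dat p) (R : Type) [CommRing R]
  [IsDomain R] [IsLocalRing R] [IsAdicComplete (maximalIdeal R) R], CharZero R →
  maximalIdeal R = Ideal.span {(p : R)} → ∀ (C : Chr T R) (d : ℕ)
  (L : AddSubgroup (Fin r → ZMod p)), Nat.card L * p ^ d = p ^ r →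
  ∀ i : MonoidAlgebra R (Hs T (AA p r)), Ok C (JQ p r) (AL L) i →
  (red R (Hs T (AA p r)) i).coeff 1 ≠ 0 →
  beta p d * T.l ^ (2 * Fintype.card (AA p r)) ≤
    dm (red R (Hs T (AA p r)) i) * T.l ^ Nat.card {a : AA p r // a ∈ AL L}

/-- NUF (helper47): the consequence over an algebraically closed field -/
def S_NUF : Prop := ∀ (p : ℕ) [Fact p.Prime] (r : ℕ), p ≠ 2 → ∀ (T : Dat p) (F : Type) [Field F]
  [IsAlgClosed F] [CharP F p] (C : Chr T F) (i : MonoidAlgebra F (Hs T (AA p r))), i * i = i →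
  ee C (AA p r) * i = i → IJ (JQ p r) i → i.coeff 1 ≠ 0 →
  beta p r * T.l ^ Fintype.card (AA p r) ≤ dm i

/-- the theorem -/
def S_MAIN : Prop := ∀ (p : ℕ) [Fact p.Prime], p ≠ 2 → ∀ (𝒪 : Type) [CommRing 𝒪] [IsLocalRing 𝒪]
  [IsNoetherianRing 𝒪] [IsAdicComplete (maximalIdeal 𝒪) 𝒪] [IsAlgClosed (ResidueField 𝒪)]
  [CharP (ResidueField 𝒪) p] (D₀ : Type) [Group D₀] [Finite D₀], IsPGroup p D₀ →
  ∀ (r : ℕ) (φ : D₀ →* Multiplicative (Fin r → ZMod p)), Function.Surjective φ →
  ∃ n, OccursIn 𝒪 p D₀ n ∧ beta p r ≤ n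

end Pool.Agent.Helper47.EP
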