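import Pool.Agent.Helper47.EP.Nuf

/-!
# Project EP: the theorem from the goals
-/

set_option autoImplicit false
set_option linter.unusedSectionVars false

namespace Pool.Agent.Helper47.EP

open MonoidAlgebra IsLocalRing Pool.Agent.Helper17.PF

/-- the representation of `FG` through `θ` -/
noncomputable def rhoG {p : ℕ} [Fact p.Prime] {T : Dat p} {A : Type} [Fintype A] [DecidableEq A]
    {F : Type} [Field F] {C : Chr T F} {D : Type} [Group D] [Finite D]
    (hth : S_TH) (π : D →* Multiplicative (A → ZMod p)) {n : ℕ}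
    (ρ : MonoidAlgebra F (Hs T A) →ₐ[F] Module.End F (Fin n → F)) (h1 : ρ (ee C A) = 1) :
    MonoidAlgebra F (GG T A π) →ₐ[F] Module.End F (Fin n → F) :=
  AlgHom.ofLinearMap
    { toFun := fun x => ρ (th π C x)
      map_add' := by
        intro x y
        rw [(hth p T A F C D π).2.2.2.2.2.1, map_add]
      map_smul' := by
        intro c x
        rw [(hth p T A F C D π).2.2.2.2.2.2.1, map_smul]
        rfl }
    (by
      show ρ (th π C 1) = 1
      rw [(hth p T A F C D π).2.2.2.2.2.2.2, h1])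
    (by
      intro x y
      show ρ (th π C (x * y)) = ρ (th π C x) * ρ (th π C y)
      rw [(hth p T A F C D π).1, map_mul])

theorem rhoG_apply {p : ℕ} [Fact p.Prime] {T : Dat p} {A : Type} [Fintype A] [DecidableEq A]
    {F : Type} [Field F] {C : Chr T F} {D : Type} [Group D] [Finite D]
    (hth : S_TH) (π : D →* Multiplicative (A → ZMod p)) {n : ℕ}
    (ρ : MonoidAlgebra F (Hs T A) →ₐ[F] Module.End F (Fin n → F)) (h1 : ρ (ee C A) = 1)
    (x : MonoidAlgebra F (GG T A π)) : rhoG hth π ρ h1 x = ρ (th π C x) := rfl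

theorem red_inE {p : ℕ} {T : Dat p} {A : Type} [Fintype A] [DecidableEq A] {D : Type} [Group D]
    (π : D →* Multiplicative (A → ZMod p)) {𝒪 : Type} [CommRing 𝒪] [IsLocalRing 𝒪]
    (y : MonoidAlgebra 𝒪 (Hs T A)) :
    red 𝒪 (GG T A π) (inE π 𝒪 T y) = inE π (ResidueField 𝒪) T (red 𝒪 (Hs T A) y) := by
  classical
  induction y using MonoidAlgebra.induction_linear with
  | zero => simp only [map_zero]
  | add f g hf hg => simp only [map_add, hf, hg]
  | single a b =>
    unfold inE red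
    rw [mapDomainRingHom_apply, mapDomain_single, mapRingHom_single, mapRingHom_single,
      mapDomainRingHom_apply, mapDomain_single]

theorem main (hfld : S_FLD) (hhb : S_HB) (hlft : S_LFT) (hodd : S_ODD) (hchr : S_CHR)
    (hrep : S_REP) (hth : S_TH) (hnil : S_NIL) (hblk : S_BLK) (hcen : S_CEN)
    (hexi : S_EXI) (hsrc : S_SRC) (hobj : S_OBJ) (hcnt : S_CNT) (hnuf : S_NUF) : S_MAIN := by
  intro p _ hp2 𝒪 _ _ _ _ _ _ D₀ _ _ hD₀ r φ hφ
  have hp := (Fact.out : p.Prime)
  obtain ⟨T⟩ := hfld p hp hp2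
  obtain ⟨Cb⟩ := (hchr p T).1 (ResidueField 𝒪)
  obtain ⟨C, hC⟩ := (hchr p T).2 𝒪 Cb
  let π : D₀ →* Multiplicative (AA p r → ZMod p) := (emb p r).comp φ
  have hrange : (Set.range fun d => Multiplicative.toAdd (π d)) = JQ p r := by
    ext j
    constructor
    · rintro ⟨d, rfl⟩
      exact ⟨Multiplicative.toAdd (φ d), rfl⟩
    · rintro ⟨u, rfl⟩
      obtain ⟨d, hd⟩ := hφ (Multiplicative.ofAdd u)
      refine ⟨d, ?_⟩
      show (fun a => pr a (Multiplicative.toAdd (φ d))) = _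
      rw [hd]
      rfl
  have hπ : ∀ a : AA p r, ∃ d, Multiplicative.toAdd (π d) a ≠ 0 := by
    intro a
    obtain ⟨u, hu⟩ := (hodd p r hp2).2.1 a
    obtain ⟨d, hd⟩ := hφ (Multiplicative.ofAdd u)
    refine ⟨d, ?_⟩
    show pr a (Multiplicative.toAdd (φ d)) ≠ 0
    rw [hd]
    exact hu
  -- the primitive idempotent
  obtain ⟨iF, hiF, hiF1⟩ := hexi p T (AA p r) (ResidueField 𝒪) Cb (JQ p r)
  have hok : Ok (C.map (residue 𝒪)) (JQ p r) Set.univ iF := by
    rw [hC]
    exact ⟨hiF.2.1, hiF.1.1, hiF.1.2, fun g _ a ha => absurd (Set.mem_univ a) ha⟩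
  obtain ⟨i, hi, hri⟩ := hlft p T (AA p r) 𝒪 C (JQ p r) Set.univ iF hok
  set b := inE π 𝒪 T (ee C (AA p r)) with hb
  have hbl : IsBlock b := (hblk p T (AA p r) D₀ hD₀ π).2 𝒪 C
  have hcn := hcen p T (AA p r) D₀ hD₀ π hπ 𝒪 C
  obtain ⟨hdef, hso⟩ := hsrc p T (AA p r) D₀ hD₀ π 𝒪 C
  have hso' := hso i hi.idem hi.ee (by rw [hrange]; exact hi.inv)
    (by rw [hC, hrange, hri]; exact hiF) (by rw [hri]; exact hiF1)
  obtain ⟨hb1, hb2, -, -, -, -, hb7⟩ := hhb p T (AA p r) 𝒪 C
  obtain ⟨ρ, hρs, hρe, hρi, hρd⟩ := hrep p T (AA p r) (ResidueField 𝒪) Cb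
  obtain ⟨t1, t2, -, t4, -, -, -, -⟩ := hth p T (AA p r) (ResidueField 𝒪) Cb D₀ π
  have hiF2 : iF * ee Cb (AA p r) = iF := by
    obtain ⟨-, hb2F, -, -, -, -, -⟩ := hhb p T (AA p r) (ResidueField 𝒪) Cb
    rw [← hb2F iF]
    exact hiF.1.1
  have hredb : red 𝒪 (GG T (AA p r) π) b = inE π (ResidueField 𝒪) T (ee Cb (AA p r)) := by
    rw [hb, red_inE]
    congr 1
    rw [← hC]
    exact (hb7 _ (residue 𝒪)).1
  have hsurj : Function.Surjective (rhoG hth π ρ hρe) := by
    intro f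
    obtain ⟨y, hy⟩ := hρs f
    refine ⟨inE π (ResidueField 𝒪) T y, ?_⟩
    rw [rhoG_apply, t2, map_mul, hρe, mul_one, hy]
  have hfinG : Finite (GG T (AA p r) π) := by
    have : Finite (Hs T (AA p r)) := inferInstance
    exact Finite.of_equiv _ (SemidirectProduct.equivProd (φ := (taHom T (AA p r)).comp π)).symm
  have hii : inE π 𝒪 T i * inE π 𝒪 T i = inE π 𝒪 T i := by rw [← map_mul, hi.idem]
  have hib : inE π 𝒪 T i * b = inE π 𝒪 T i := by
    rw [hb, ← map_mul, ← hb2 i, hi.ee]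
  obtain ⟨s, e₀, he₀, hs1, hs2, hs3, hs4, hs5⟩ := hcnt 𝒪 (GG T (AA p r) π) b (inE π 𝒪 T i) hbl hii
    hso'.1.2.2.1 hib _ (rhoG hth π ρ hρe) hsurj (by
      intro e he heb hρ
      have hx : red 𝒪 (GG T (AA p r) π) e = 0 := by
        refine hnil p T (AA p r) (ResidueField 𝒪) Cb D₀ hD₀ π _ (by rw [← map_mul, he]) ?_ ?_
        · rw [← hredb, ← map_mul]
          have h1 : b * e = e * b := by
            have := hbl.1
            rw [Set.mem_center_iff] at this
            exact (this.comm e)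
          rw [h1, heb]
        · exact hρi _ (t4 _) hρ
      exact idem_zero he hx)
  have hrank : beta p r ≤ s.card := by
    have h1 := hnuf p r hp2 T (ResidueField 𝒪) Cb iF hiF.2.1 hiF.1.1 hiF.1.2 hiF1
    rw [hρd iF hiF.1.1, mul_comm] at h1
    have h2 := Nat.le_of_mul_le_mul_left h1 (pow_pos T.prime.pos _)
    rw [rhoG_apply, red_inE, hri, t2, hiF2] at hs5
    exact h2.trans hs5
  have hDp : IsPGroup p (DD π T) := by
    unfold DD
    exact IsPGroup.of_surjective hD₀ _ (MonoidHom.rangeRestrict_surjective _)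
  have hOb := hobj p 𝒪 (GG T (AA p r) π) b (inE π 𝒪 T i) e₀ (DD π T) hDp hbl hso' hcn.1 hcn.2
    (hs1 e₀ he₀)
  refine ⟨s.card, ⟨GG T (AA p r) π, inferInstance, hfinG, b, inE π 𝒪 T i, DD π T, ⊥, DD π T, _, _,
    hbl, hdef, ?_, hso', hOb.2, hOb.1, ?_, ?_⟩, hrank⟩
  · have hinj : Function.Injective (SemidirectProduct.inr : D₀ →* GG T (AA p r) π) :=
      SemidirectProduct.inr_injective
    exact ⟨(MonoidHom.ofInjective hinj).symm⟩
  · refine ⟨bot_le, inE π 𝒪 T i, ?_, s, hs1, hs2, hs3, ?_⟩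
    · have hbb : b ∈ fixedPoints b (DD π T) := by
        refine ⟨hbl.2.1, ?_⟩
        intro u _
        have h1 := hbl.1
        rw [Set.mem_center_iff] at h1
        rw [← (h1.comm _), mul_assoc, single_mul_single, mul_inv_cancel, mul_one]
        exact mul_one b
      refine ⟨b, hbb, b, hbb, hbl.2.1, hbl.2.1, ?_⟩
      have h1 := hbl.1
      rw [Set.mem_center_iff] at h1
      rw [(h1.comm _), mul_assoc, hbl.2.1, hib]
    · have h1 : ((s : Set (MonoidAlgebra 𝒪 (GG T (AA p r) π))) ∩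
          {j | ∃ u ∈ fixedPoints b ⊥, ∃ v ∈ fixedPoints b ⊥, u * v = b ∧ v * u = b ∧
            j = u * e₀ * v}) = s := by
        ext e
        constructor
        · exact fun h => h.1
        · exact fun h => ⟨h, hs4 e h⟩
      rw [h1, Set.ncard_coe_finset]
  · refine ⟨(SemidirectProduct.inl : Hs T (AA p r) →* GG T (AA p r) π).range, ?_, ?_, ?_⟩
    · have h1 : (SemidirectProduct.inl : Hs T (AA p r) →* GG T (AA p r) π).range =
          (SemidirectProduct.rightHom : GG T (AA p r) π →* D₀).ker :=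
        SemidirectProduct.range_inl_eq_ker_rightHom
      rw [h1]
      infer_instance
    · have h1 : Nat.card (SemidirectProduct.inl : Hs T (AA p r) →* GG T (AA p r) π).range =
          Nat.card (Hs T (AA p r)) :=
        Nat.card_congr (MonoidHom.ofInjective
          (SemidirectProduct.inl_injective (φ := (taHom T (AA p r)).comp π))).toEquiv.symm
      rw [h1, card_Hs, ← pow_succ]
      exact Nat.Coprime.pow_left _ ((Nat.coprime_primes T.prime hp).2 T.ne)
    · rw [eq_top_iff]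
      intro g _
      rw [← SemidirectProduct.inl_left_mul_inr_right g]
      exact Subgroup.mul_mem_sup ⟨_, rfl⟩ ⟨_, rfl⟩

end Pool.Agent.Helper47.EP
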