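import Pool.Agent.Helper47.EP.Num

/-!
# Project EP: the inequality over an algebraically closed field
-/

set_option autoImplicit false
set_option linter.unusedSectionVars false

namespace Pool.Agent.Helper47.EP

open MonoidAlgebra IsLocalRing Pool.Agent.Helper17.PF

/-- transport of the dimension -/
theorem dm_map {k k' : Type} [Field k] [Field k'] {L : Type} [Group L] (σ : k ≃+* k')
    (x : MonoidAlgebra k L) :
    dm (MonoidAlgebra.mapRingHom L (σ : k →+* k') x) = dm x := by
  set Φ := MonoidAlgebra.mapRingHom L (σ : k →+* k') with hΦ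
  set Ψ := MonoidAlgebra.mapRingHom L (σ.symm : k' →+* k) with hΨ
  have h1 : ∀ y, Ψ (Φ y) = y := by
    intro y
    ext g
    rw [hΨ, hΦ, coeff_mapRingHom, coeff_mapRingHom]
    exact σ.symm_apply_apply _
  have h2 : ∀ y, Φ (Ψ y) = y := by
    intro y
    ext g
    rw [hΨ, hΦ, coeff_mapRingHom, coeff_mapRingHom]
    exact σ.apply_symm_apply _
  have h3 : ∀ (c : k) (y : MonoidAlgebra k L), Φ (c • y) = σ c • Φ y := by
    intro c y
    ext g
    rw [hΦ, coeff_smul, Finsupp.smul_apply, coeff_mapRingHom, coeff_mapRingHom, coeff_smul,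
      Finsupp.smul_apply, smul_eq_mul, smul_eq_mul, map_mul]
    rfl
  have hmem : ∀ y : LinearMap.range (LinearMap.mulLeft k x),
      Φ y.1 ∈ LinearMap.range (LinearMap.mulLeft k' (Φ x)) := by
    rintro ⟨_, z, rfl⟩
    refine ⟨Φ z, ?_⟩
    rw [LinearMap.mulLeft_apply, ← map_mul]
    rfl
  let j : LinearMap.range (LinearMap.mulLeft k x) →+
      LinearMap.range (LinearMap.mulLeft k' (Φ x)) :=
    { toFun := fun y => ⟨Φ y.1, hmem y⟩
      map_zero' := by
        ext1
        exact map_zero Φ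
      map_add' := by
        intro a b
        ext1
        exact map_add Φ _ _ }
  have hj : Function.Bijective j := by
    constructor
    · intro a b hab
      ext1
      have h4 : Φ a.1 = Φ b.1 := congrArg Subtype.val hab
      rw [← h1 a.1, h4, h1]
    · rintro ⟨_, z, rfl⟩
      refine ⟨⟨x * Ψ z, ⟨Ψ z, rfl⟩⟩, ?_⟩
      ext1
      show Φ (x * Ψ z) = Φ x * z
      rw [map_mul, h2]
  have h5 := rank_eq_of_equiv_equiv (R := k) (R' := k') (fun c => σ c) (AddEquiv.ofBijective j hj)
    σ.bijective (by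
      intro c y
      ext1
      exact h3 c y.1)
  unfold dm Module.finrank
  rw [h5]

theorem nuf (hnum : S_NUM) (hwv : S_WV) (hchr : S_CHR) (hlft : S_LFT) (hhb : S_HB) : S_NUF := by
  intro p _ r hp2 T F _ _ _ C i hi1 hi2 hi3 hi4
  obtain ⟨R, _, _, _, _, hch, hmax, ⟨φ⟩⟩ := hwv p F
  set C₀ : Chr T (ResidueField R) := C.map (φ.symm : F →+* ResidueField R) with hC₀
  set i₀ := MonoidAlgebra.mapRingHom (Hs T (AA p r)) (φ.symm : F →+* ResidueField R) i with hi₀
  obtain ⟨C', hC'⟩ := (hchr p T).2 R C₀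
  have hok : Ok (C'.map (residue R)) (JQ p r) (AL ⊥) i₀ := by
    rw [hC']
    refine ⟨?_, ?_, ?_, ?_⟩
    · rw [hi₀, ← map_mul, hi1]
    · obtain ⟨-, -, -, -, -, -, hb7⟩ := hhb p T (AA p r) F C
      rw [hC₀, ← (hb7 _ (φ.symm : F →+* ResidueField R)).1, hi₀, ← map_mul, hi2]
    · intro j hj g
      rw [hi₀, coeff_mapRingHom, coeff_mapRingHom, hi3 j hj g]
    · intro g _ a ha
      exfalso
      apply ha
      intro v hv
      rw [AddSubgroup.mem_bot] at hv
      rw [hv]
      simp [pr]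
  obtain ⟨i', hi', hred⟩ := hlft p T (AA p r) R C' (JQ p r) (AL ⊥) i₀ hok
  have h1 : (red R (Hs T (AA p r)) i').coeff 1 ≠ 0 := by
    rw [hred, hi₀, coeff_mapRingHom]
    intro h
    apply hi4
    have := congrArg φ h
    rw [map_zero] at this
    rw [← this]
    exact (φ.apply_symm_apply _).symm
  have h2 := hnum p r hp2 T R hch hmax C' r ⊥ (by
    rw [AddSubgroup.card_bot, one_mul]) i' hi' h1
  have h3 : Nat.card {a : AA p r // a ∈ AL (⊥ : AddSubgroup (Fin r → ZMod p))} =
      Fintype.card (AA p r) := by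
    rw [← Nat.card_eq_fintype_card]
    refine Nat.card_congr (Equiv.subtypeUnivEquiv ?_)
    intro a v hv
    rw [AddSubgroup.mem_bot] at hv
    rw [hv]
    simp [pr]
  rw [h3, hred, hi₀, dm_map] at h2
  have h4 : 0 < T.l ^ Fintype.card (AA p r) := pow_pos T.prime.pos _
  have h5 : T.l ^ (2 * Fintype.card (AA p r)) = T.l ^ Fintype.card (AA p r) *
      T.l ^ Fintype.card (AA p r) := by
    rw [two_mul, pow_add]
  rw [h5, ← mul_assoc] at h2
  exact Nat.le_of_mul_le_mul_right h2 h4

end Pool.Agent.Helper47.EP
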