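import Pool.Agent.Helper47.EP.Goals

/-!
# Project EP: the inequality NUM
-/

set_option autoImplicit false
set_option linter.unusedSectionVars false

namespace Pool.Agent.Helper47.EP

open MonoidAlgebra IsLocalRing Pool.Agent.Helper17.PF

theorem card_Hs {p : ℕ} (T : Dat p) (A : Type) [Fintype A] [DecidableEq A] :
    Nat.card (Hs T A) = T.l ^ (2 * Fintype.card A) * T.l := by
  rw [Nat.card_congr (Hs.equiv T A), Nat.card_prod, Nat.card_fun, Nat.card_zmod,
    Nat.card_eq_fintype_card, Nat.card_eq_fintype_card, T.card, ← pow_mul]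

theorem cred {R : Type} [CommRing R] [IsLocalRing R] {L : Type} [Group L] (x : MonoidAlgebra R L)
    (g : L) : (red R L x).coeff g = residue R (x.coeff g) := by
  unfold red
  rw [coeff_mapRingHom]

theorem rs_mem {k : Type} [CommRing k] {L : Type} {S : Set L} (x : MonoidAlgebra k L) {g : L}
    (h : g ∈ S) : (rs S x).coeff g = x.coeff g := by
  classical
  unfold rs
  exact Finsupp.filter_apply_pos _ _ h

theorem rs_not {k : Type} [CommRing k] {L : Type} {S : Set L} (x : MonoidAlgebra k L) {g : L}
    (h : g ∉ S) : (rs S x).coeff g = 0 := by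
  classical
  unfold rs
  exact Finsupp.filter_apply_neg _ _ h

theorem jv_add {p r : ℕ} (B : Set (AA p r)) (u v : Fin r → ZMod p) :
    jv B (u + v) = jv B u + jv B v := by
  classical
  funext a
  unfold jv
  rw [Pi.add_apply]
  by_cases h : a ∈ B
  · rw [if_pos h, if_pos h, if_pos h]
    simp [pr, mul_add, Finset.sum_add_distrib]
  · rw [if_neg h, if_neg h, if_neg h, add_zero]

theorem jv_mem {p r : ℕ} {B : Set (AA p r)} (u : Fin r → ZMod p) {a : AA p r} (h : a ∈ B) :
    jv B u a = pr a u := by
  unfold jv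
  exact if_pos h

theorem jv_not {p r : ℕ} {B : Set (AA p r)} (u : Fin r → ZMod p) {a : AA p r} (h : a ∉ B) :
    jv B u a = 0 := by
  unfold jv
  exact if_neg h

theorem jv_L {p r : ℕ} {L : AddSubgroup (Fin r → ZMod p)} {u : Fin r → ZMod p} (h : u ∈ L) :
    jv (AL L) u = 0 := by
  funext a
  by_cases ha : a ∈ AL L
  · rw [jv_mem u ha]
    exact ha u h
  · rw [jv_not u ha]
    rfl

theorem ta_one {p : ℕ} {T : Dat p} {A : Type} [Fintype A] [DecidableEq A] (j : A → ZMod p) :
    ta j (1 : Hs T A) = 1 := map_one _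

/-- `ta j` for `j = jv (AL L) u` agrees with the torus element of `u` on the support -/
theorem ta_jv {p r : ℕ} [NeZero p] {T : Dat p} {L : AddSubgroup (Fin r → ZMod p)} (u : Fin r → ZMod p)
    (g : Hs T (AA p r)) (hg : ∀ a, a ∉ AL L → g.v a = 0) :
    ta (jv (AL L) u) g = ta (fun a => pr a u) g := by
  ext1
  · funext a
    rw [ta_v, ta_v]
    by_cases ha : a ∈ AL L
    · rw [jv_mem u ha]
    · rw [hg a ha, map_zero, map_zero]
  · rfl

theorem inv_jv {p r : ℕ} [NeZero p] {T : Dat p} {R : Type} [CommRing R] {L : AddSubgroup (Fin r → ZMod p)}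
    (u : Fin r → ZMod p) {x : MonoidAlgebra R (Hs T (AA p r))} (h1 : IJ (JQ p r) x)
    (h2 : SB (AL L) x) (g : Hs T (AA p r)) : x.coeff (ta (jv (AL L) u) g) = x.coeff g := by
  by_cases hg : ∀ a, a ∉ AL L → g.v a = 0
  · rw [ta_jv u g hg]
    exact h1 _ ⟨u, rfl⟩ g
  · push Not at hg
    obtain ⟨a, ha, hga⟩ := hg
    have h3 : x.coeff g = 0 := by
      by_contra h
      exact hga (h2 g h a ha)
    have h4 : x.coeff (ta (jv (AL L) u) g) = 0 := by
      by_contra h
      have h5 := h2 _ h a ha
      rw [ta_v, jv_not u ha, T.t_zero] at h5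
      exact hga h5
    rw [h3, h4]

theorem ta_iter {p : ℕ} {T : Dat p} {A : Type} [Fintype A] [DecidableEq A] (j : A → ZMod p)
    (n : ℕ) (g : Hs T A) : ((ta j)^[n]) g = ta (n • j) g := by
  induction n with
  | zero => rw [zero_smul]; exact (ta_zero g).symm
  | succ n ih => rw [Function.iterate_succ_apply', ih, succ_nsmul', ta_add]

theorem ta_iter_p {p : ℕ} {T : Dat p} {A : Type} [Fintype A] [DecidableEq A] (j : A → ZMod p)
    (g : Hs T A) : ((ta j)^[p]) g = g := by
  rw [ta_iter]
  have : p • j = 0 := by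
    funext a
    rw [Pi.smul_apply, nsmul_eq_mul, CharP.cast_eq_zero, zero_mul]
    rfl
  rw [this, ta_zero]

theorem ta_comm {p : ℕ} {T : Dat p} {A : Type} [Fintype A] [DecidableEq A] (j k : A → ZMod p)
    (g : Hs T A) : ta j (ta k g) = ta k (ta j g) := by
  rw [← ta_add, ← ta_add, add_comm]

/-- the restriction of the reduction of `i` to the fixed points of `u` -/
theorem rs_ok {p : ℕ} [Fact p.Prime] {r : ℕ} (hbr : S_BRH) (hhb : S_HB) (hodd : S_ODD)
    (hp2 : p ≠ 2) {T : Dat p} {k : Type} [Field k] [CharP k p] {C : Chr T k}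
    {L : AddSubgroup (Fin r → ZMod p)} (u : Fin r → ZMod p)
    {x : MonoidAlgebra k (Hs T (AA p r))} (hx : Ok C (JQ p r) (AL L) x) :
    Ok C (JQ p r) (AL (L ⊔ AddSubgroup.zmultiples u))
      (rs {g | ta (fun a => pr a u) g = g} x) := by
  have hB := hbr p k (Hs T (AA p r)) (ta fun a => pr a u) (fun g => ta_iter_p _ g)
  have hinv : ∀ g, x.coeff (ta (fun a => pr a u) g) = x.coeff g := hx.inv _ ⟨u, rfl⟩
  obtain ⟨-, -, -, -, h5, -, -⟩ := hhb p T (AA p r) k C
  have he : ∀ g : Hs T (AA p r), (ee C (AA p r)).coeff g = if g.v = 0 then C.il * C.ψ (-g.z) else 0 := by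
    intro g
    have h := h5 0 g
    have h6 : ev C (0 : AA p r → T.K) = ee C (AA p r) := by
      unfold ev
      exact one_mul _
    rw [h6] at h
    exact h
  refine ⟨?_, ?_, ?_, ?_⟩
  · rw [← hB x x hinv hinv, hx.idem]
  · have h7 : rs {g | ta (fun a => pr a u) g = g} (ee C (AA p r)) = ee C (AA p r) := by
      ext g
      by_cases hg : ta (fun a => pr a u) g = g
      · exact rs_mem (S := {g | ta (fun a => pr a u) g = g}) _ hg
      · rw [rs_not (S := {g | ta (fun a => pr a u) g = g}) _ hg, he g, if_neg]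
        intro h0
        apply hg
        ext1
        · funext a
          rw [ta_v, h0]
          exact map_zero _
        · rfl
    have h8 : ∀ g : Hs T (AA p r), (ee C (AA p r)).coeff (ta (fun a => pr a u) g) =
        (ee C (AA p r)).coeff g := by
      intro g
      rw [he, he]
      have h9 : (ta (fun a => pr a u) g).v = 0 ↔ g.v = 0 := by
        constructor
        · intro h
          have h1 : ta (fun a => pr a u) (⟨g.v, 0⟩ : Hs T (AA p r)) = 1 := by
            ext1
            · exact h
            · rfl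
          have h2 := (ta fun a => pr a u).map_eq_one_iff.1 h1
          exact congrArg Hs.v h2
        · intro h
          funext a
          rw [ta_v, h]
          exact map_zero _
      by_cases h0 : g.v = 0
      · rw [if_pos h0, if_pos (h9.2 h0)]
        rfl
      · rw [if_neg h0, if_neg fun h => h0 (h9.1 h)]
    calc ee C (AA p r) * rs {g | ta (fun a => pr a u) g = g} x =
        rs {g | ta (fun a => pr a u) g = g} (ee C (AA p r)) *
          rs {g | ta (fun a => pr a u) g = g} x := by rw [h7]
      _ = rs {g | ta (fun a => pr a u) g = g} (ee C (AA p r) * x) := (hB _ _ h8 hinv).symm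
      _ = _ := by rw [hx.ee]
  · intro j hj g
    have h1 : ta (fun a => pr a u) (ta j g) = ta j g ↔ ta (fun a => pr a u) g = g := by
      rw [ta_comm]
      exact (ta j).injective.eq_iff
    by_cases hg : ta (fun a => pr a u) g = g
    · rw [rs_mem (S := {g | ta (fun a => pr a u) g = g}) _ (h1.2 hg),
        rs_mem (S := {g | ta (fun a => pr a u) g = g}) _ hg, hx.inv j hj g]
    · rw [rs_not (S := {g | ta (fun a => pr a u) g = g}) _ (fun h => hg (h1.1 h)),
        rs_not (S := {g | ta (fun a => pr a u) g = g}) _ hg]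
  · intro g hg a ha
    have h1 : ta (fun a => pr a u) g = g := by
      by_contra h
      exact hg (rs_not (S := {g | ta (fun a => pr a u) g = g}) _ h)
    rw [rs_mem (S := {g | ta (fun a => pr a u) g = g}) _ h1] at hg
    rw [(hodd p r hp2).2.2.2] at ha
    by_cases h2 : a ∈ AL L
    · have h3 : pr a u ≠ 0 := fun h => ha ⟨h2, h⟩
      refine T.inj _ h3 _ ?_
      exact congrArg (fun z : Hs T (AA p r) => z.v a) h1
    · exact hx.supp g hg a h2

/-- the case `L = Q` -/
theorem num_zero {p : ℕ} [Fact p.Prime] {r : ℕ} (hhb : S_HB) (htro : S_TRO) {T : Dat p} {R : Type}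
    [CommRing R] [IsDomain R] [IsLocalRing R] [CharZero R] {C : Chr T R}
    {B : Set (AA p r)} (hB : B = ∅)
    {i : MonoidAlgebra R (Hs T (AA p r))} (hi : Ok C (JQ p r) B i)
    (h1 : (red R (Hs T (AA p r)) i).coeff 1 ≠ 0) :
    dm (red R (Hs T (AA p r)) i) = T.l ^ (2 * Fintype.card (AA p r)) := by
  obtain ⟨hee, -, -, -, h5, h6, -⟩ := hhb p T (AA p r) R C
  have hev : ev C (0 : AA p r → T.K) = ee C (AA p r) := by
    unfold ev
    exact one_mul _
  have hi6 := h6 i hi.ee
  have hv : ∀ v : AA p r → T.K, v ≠ 0 → i.coeff ⟨v, 0⟩ = 0 := by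
    intro v hv
    by_contra h
    apply hv
    funext a
    refine hi.supp _ h a ?_
    rw [hB]
    exact Set.notMem_empty _
  have hi7 : i = ((T.l : R) * i.coeff 1) • ee C (AA p r) := by
    conv_lhs => rw [hi6]
    rw [Finset.sum_eq_single 0]
    · rw [hev]
      rfl
    · intro v _ h
      rw [hv v h, mul_zero, zero_smul]
    · intro h
      exact absurd (Finset.mem_univ _) h
  have he1 : (ee C (AA p r)).coeff 1 = C.il := by
    have h := h5 0 1
    rw [hev, Hs.one_v, Hs.one_z, if_pos rfl, neg_zero, AddChar.map_zero_eq_one, mul_one] at h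
    exact h
  have hil := C.il_mul
  set c : R := (T.l : R) * i.coeff 1 with hc
  have hcc : c * c = c := by
    have h := hi.idem
    rw [hi7, smul_mul_assoc, mul_smul_comm, smul_smul, hee] at h
    have h2 := congrArg (fun z => (T.l : R) * z.coeff 1) h
    simp only [coeff_smul, Finsupp.smul_apply, smul_eq_mul, he1] at h2
    calc c * c = (T.l : R) * (c * c * C.il) := by linear_combination (-(c * c)) * hil
      _ = (T.l : R) * (c * C.il) := h2
      _ = c := by linear_combination c * hil
  have hi1 : i.coeff 1 ≠ 0 := by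
    intro h
    rw [cred, h, map_zero] at h1
    exact h1 rfl
  have hi2 : i.coeff 1 = C.il * c := by
    rw [hc]
    linear_combination (-i.coeff 1) * hil
  have hc0 : c ≠ 0 := by
    intro h
    apply hi1
    rw [hi2, h, mul_zero]
  have hc1 : c = 1 := by
    have : c * c = c * 1 := by rw [mul_one]; exact hcc
    exact mul_left_cancel₀ hc0 this
  have hfin : Finite (Hs T (AA p r)) := inferInstance
  have h8 := htro R (Hs T (AA p r)) i hi.idem
  rw [card_Hs, hi2, hc1, mul_one] at h8
  have h9 : ((T.l ^ (2 * Fintype.card (AA p r)) : ℕ) : R) = (dm (red R (Hs T (AA p r)) i) : R) := by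
    rw [← h8]
    push_cast
    linear_combination (-(T.l : R) ^ (2 * Fintype.card (AA p r))) * hil
  exact (Nat.cast_injective h9).symm

/-- `ρ` commutes with the invariant elements -/
theorem rho_comm {p : ℕ} {T : Dat p} {A : Type} [Fintype A] [DecidableEq A] {R : Type}
    [CommRing R] {C : Chr T R} {j : A → ZMod p}
    (h4 : ∀ g : Hs T A, single (ta j g) (1 : R) * rho C j = rho C j * single g (1 : R))
    {x : MonoidAlgebra R (Hs T A)} (hx : ∀ g, x.coeff (ta j g) = x.coeff g) :
    rho C j * x = x * rho C j := by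
  classical
  have hsum : ∀ y : MonoidAlgebra R (Hs T A), y = ∑ g, y.coeff g • single g (1 : R) := by
    intro y
    ext h
    simp only [coeff_sum, Finset.sum_apply', coeff_smul, Finsupp.smul_apply, coeff_single,
      Finsupp.single_apply, smul_eq_mul, mul_ite, mul_one, mul_zero]
    rw [Finset.sum_ite_eq' Finset.univ h]
    simp
  have h5 : x = ∑ g, x.coeff g • single (ta j g) (1 : R) := by
    conv_lhs => rw [hsum x]
    rw [← Equiv.sum_comp (ta j).toEquiv]
    refine Finset.sum_congr rfl fun g _ => ?_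
    show x.coeff (ta j g) • single (ta j g) (1 : R) = _
    rw [hx g]
  conv_lhs => rw [hsum x, Finset.mul_sum]
  conv_rhs => rw [h5, Finset.sum_mul]
  refine Finset.sum_congr rfl fun g _ => ?_
  rw [mul_smul_comm, smul_mul_assoc, h4]

/-- the trace of the element `∑_u ρ(u) i` -/
theorem num_tr {p : ℕ} [Fact p.Prime] {r : ℕ} (htr : S_TR) (hrho : S_RHO) {T : Dat p} {R : Type}
    [CommRing R] [IsDomain R] [CharZero R] {C : Chr T R}
    {L : AddSubgroup (Fin r → ZMod p)}
    {i : MonoidAlgebra R (Hs T (AA p r))} (hi : Ok C (JQ p r) (AL L) i) :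
    ∃ M : ℕ, ∑ u : Fin r → ZMod p,
      ((Nat.card (Hs T (AA p r)) : R) * (rho C (jv (AL L) u) * i).coeff 1) =
        ((p ^ r * M : ℕ) : R) := by
  obtain ⟨-, -, h3, h4, -, -, -, -⟩ := hrho p T (AA p r) R C
  set P : MonoidAlgebra R (Hs T (AA p r)) := ∑ u : Fin r → ZMod p, rho C (jv (AL L) u) with hP
  have hPi : P * i = i * P := by
    rw [hP, Finset.sum_mul, Finset.mul_sum]
    refine Finset.sum_congr rfl fun u _ => ?_
    exact rho_comm (h4 _) (inv_jv u hi.inv hi.supp)
  have hPP : P * P = ((p ^ r : ℕ) : R) • P := by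
    have h5 : ∀ u : Fin r → ZMod p, rho C (jv (AL L) u) * P = P := by
      intro u
      rw [hP, Finset.mul_sum]
      rw [← Equiv.sum_comp (Equiv.addLeft u) fun v => rho C (jv (AL L) v)]
      refine Finset.sum_congr rfl fun v _ => ?_
      rw [h3, ← jv_add]
      rfl
    conv_lhs => rw [hP, Finset.sum_mul]
    rw [Finset.sum_congr rfl fun u _ => h5 u, Finset.sum_const, Finset.card_univ,
      Fintype.card_fun, ZMod.card, Fintype.card_fin, Nat.cast_smul_eq_nsmul]
  have hq : ((p ^ r : ℕ) : FractionRing R) ≠ 0 := by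
    have h6 : algebraMap R (FractionRing R) ((p ^ r : ℕ) : R) = ((p ^ r : ℕ) : FractionRing R) :=
      map_natCast _ _
    rw [← h6]
    intro h
    rw [← map_zero (algebraMap R (FractionRing R))] at h
    have h7 := IsFractionRing.injective R (FractionRing R) h
    have h8 : p ^ r ≠ 0 := pow_ne_zero _ (Fact.out : p.Prime).ne_zero
    exact h8 (Nat.cast_injective (by rw [h7, Nat.cast_zero]))
  set φ := MonoidAlgebra.mapRingHom (Hs T (AA p r)) (algebraMap R (FractionRing R)) with hφ
  set g : MonoidAlgebra (FractionRing R) (Hs T (AA p r)) :=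
    (((p ^ r : ℕ) : FractionRing R)⁻¹) • φ (P * i) with hg
  have hφs : ∀ (c : R) (x : MonoidAlgebra R (Hs T (AA p r))),
      φ (c • x) = algebraMap R (FractionRing R) c • φ x := by
    intro c x
    ext h
    rw [hφ, coeff_smul, Finsupp.smul_apply, coeff_mapRingHom, coeff_mapRingHom, coeff_smul,
      Finsupp.smul_apply, smul_eq_mul, smul_eq_mul, map_mul]
  have hgg : g * g = g := by
    have h9 : P * i * (P * i) = ((p ^ r : ℕ) : R) • (P * i) := by
      calc P * i * (P * i) = P * (i * P) * i := by simp only [mul_assoc]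
        _ = P * P * (i * i) := by rw [← hPi]; simp only [mul_assoc]
        _ = _ := by rw [hPP, hi.idem, smul_mul_assoc]
    rw [hg, smul_mul_assoc, mul_smul_comm, ← map_mul, h9, hφs, map_natCast, smul_smul, smul_smul,
      mul_assoc, inv_mul_cancel₀ hq, mul_one]
  have hfin : Finite (Hs T (AA p r)) := inferInstance
  have h10 := htr (FractionRing R) (Hs T (AA p r)) g hgg
  refine ⟨dm g, ?_⟩
  apply IsFractionRing.injective R (FractionRing R)
  rw [map_natCast, Nat.cast_mul, ← h10, hg, coeff_smul, Finsupp.smul_apply, smul_eq_mul, hφ,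
    coeff_mapRingHom]
  have h11 : ∑ u : Fin r → ZMod p,
      ((Nat.card (Hs T (AA p r)) : R) * (rho C (jv (AL L) u) * i).coeff 1) =
      (Nat.card (Hs T (AA p r)) : R) * (P * i).coeff 1 := by
    rw [← Finset.mul_sum, hP, Finset.sum_mul, coeff_sum, Finset.sum_apply']
  rw [h11, map_mul, map_natCast]
  field_simp

/-- the contribution of a `u` outside `L` -/
theorem num_u {p : ℕ} [Fact p.Prime] {r : ℕ} (hhb : S_HB) (hrho : S_RHO) (htro : S_TRO)
    (htau : S_TAU) (hbr : S_BRH) (hlft : S_LFT) (hodd : S_ODD) (hp2 : p ≠ 2) {T : Dat p}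
    {R : Type} [CommRing R] [IsDomain R] [IsLocalRing R] [IsAdicComplete (maximalIdeal R) R]
    (hmax : maximalIdeal R = Ideal.span {(p : R)}) {C : Chr T R} {d : ℕ}
    (ih : ∀ L : AddSubgroup (Fin r → ZMod p), Nat.card L * p ^ d = p ^ r →
      ∀ i : MonoidAlgebra R (Hs T (AA p r)), Ok C (JQ p r) (AL L) i →
      (red R (Hs T (AA p r)) i).coeff 1 ≠ 0 →
      beta p d * T.l ^ (2 * Fintype.card (AA p r)) ≤
        dm (red R (Hs T (AA p r)) i) * T.l ^ Nat.card {a : AA p r // a ∈ AL L})
    {L : AddSubgroup (Fin r → ZMod p)} (hL : Nat.card L * p ^ (d + 1) = p ^ r)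
    {i : MonoidAlgebra R (Hs T (AA p r))} (hi : Ok C (JQ p r) (AL L) i)
    (h1 : (red R (Hs T (AA p r)) i).coeff 1 ≠ 0) (u : Fin r → ZMod p) (hu : u ∉ L) :
    ∃ N : ℕ, beta p d * T.l ^ (2 * Fintype.card (AA p r)) ≤ N ∧
      (T.l : R) ^ Nat.card {a : AA p r // a ∈ AL L} *
        ((Nat.card (Hs T (AA p r)) : R) * (rho C (jv (AL L) u) * i).coeff 1) = -(N : R) := by
  classical
  have hp := (Fact.out : p.Prime)
  have hchar : CharP (ResidueField R) p := by
    have h0 : ((p : ℕ) : ResidueField R) = 0 := by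
      rw [← map_natCast (residue R), residue_eq_zero_iff, hmax]
      exact Ideal.mem_span_singleton_self _
    exact (CharP.charP_iff_prime_eq_zero hp).2 h0
  obtain ⟨o1, -, o3, o4⟩ := hodd p r hp2
  obtain ⟨-, -, -, -, -, -, hb7⟩ := hhb p T (AA p r) R C
  obtain ⟨-, -, -, -, r5, -, -, -⟩ := hrho p T (AA p r) R C
  have hredok : Ok (C.map (residue R)) (JQ p r) (AL L) (red R (Hs T (AA p r)) i) := by
    refine ⟨?_, ?_, ?_, ?_⟩
    · rw [← map_mul, hi.idem]
    · have h2 : ee (C.map (residue R)) (AA p r) = red R (Hs T (AA p r)) (ee C (AA p r)) :=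
        (hb7 _ (residue R)).1.symm
      rw [h2, ← map_mul, hi.ee]
    · intro j hj g
      rw [cred, cred, hi.inv j hj g]
    · intro g hg a ha
      refine hi.supp g ?_ a ha
      intro h
      rw [cred, h, map_zero] at hg
      exact hg rfl
  have hrs := rs_ok hbr hhb hodd hp2 u hredok
  obtain ⟨i', hi', hri'⟩ := hlft p T (AA p r) R C (JQ p r) _ _ hrs
  set S : Set (Hs T (AA p r)) := {g | ta (fun a => pr a u) g = g} with hS
  have hS1 : (1 : Hs T (AA p r)) ∈ S := ta_one _
  have hi'1 : (red R (Hs T (AA p r)) i').coeff 1 ≠ 0 := by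
    rw [hri', rs_mem _ hS1]
    exact h1
  have hLu : Nat.card (L ⊔ AddSubgroup.zmultiples u : AddSubgroup (Fin r → ZMod p)) * p ^ d =
      p ^ r := by
    rw [o3 L u hu, ← hL, pow_succ]
    ring
  have hN := ih _ hLu i' hi' hi'1
  refine ⟨_, hN, ?_⟩
  -- TAU
  have hres : ∀ g, ta (jv (AL L) u) g = g → residue R (i.coeff g) = residue R (i'.coeff g) := by
    intro g hg
    rw [← cred, ← cred, hri']
    by_cases h3 : ∀ a, a ∉ AL L → g.v a = 0
    · have h4 : g ∈ S := by
        show ta (fun a => pr a u) g = g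
        rw [← ta_jv u g h3]
        exact hg
      rw [rs_mem _ h4]
    · push Not at h3
      obtain ⟨a, ha, hga⟩ := h3
      have h5 : (red R (Hs T (AA p r)) i).coeff g = 0 := by
        by_contra h
        exact hga (hredok.supp g h a ha)
      by_cases h4 : g ∈ S
      · rw [rs_mem _ h4]
      · rw [rs_not _ h4, h5]
  have hsupp' : SB (AL L) i' := by
    intro g hg a ha
    refine hi'.supp g hg a ?_
    intro h
    rw [o4] at h
    exact ha h.1
  have htau' := htau p T (AA p r) R C hmax (jv (AL L) u) i i' hi.idem hi'.idem hi.ee hi'.ee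
    (inv_jv u hi.inv hi.supp) (inv_jv u hi'.inv hsupp') hres
  have hr5 := r5 (jv (AL L) u) i' hi'.ee (by
    intro g hg a ha
    refine hi'.supp g hg a ?_
    intro h
    rw [o4] at h
    apply ha
    rw [jv_mem u h.1]
    exact h.2)
  have hcard : Nat.card {a : AA p r // a ∈ AL L} =
      (Finset.univ.filter fun a => jv (AL L) u a ≠ 0).card +
        Nat.card {a : AA p r // a ∈ AL (L ⊔ AddSubgroup.zmultiples u)} := by
    rw [Nat.card_eq_fintype_card, Nat.card_eq_fintype_card, Fintype.card_subtype,
      Fintype.card_subtype, ← Finset.card_filter_add_card_filter_not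
        (s := Finset.univ.filter fun a => a ∈ AL L) (fun a => pr a u ≠ 0)]
    congr 2
    · ext a
      simp only [Finset.mem_filter, Finset.mem_univ, true_and]
      by_cases ha : a ∈ AL L
      · rw [jv_mem u ha]
        exact ⟨fun h => h.2, fun h => ⟨ha, h⟩⟩
      · rw [jv_not u ha]
        exact ⟨fun h => absurd h.1 ha, fun h => absurd rfl h⟩
    · ext a
      simp only [Finset.mem_filter, Finset.mem_univ, true_and, not_not]
      rw [o4]
  have hoddk : Odd (Finset.univ.filter fun a => jv (AL L) u a ≠ 0).card := by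
    have h6 := o1 L u hu
    rw [Nat.card_eq_fintype_card, Fintype.card_subtype] at h6
    have h7 : (Finset.univ.filter fun a => jv (AL L) u a ≠ 0) =
        Finset.univ.filter fun a => a ∈ AL L ∧ pr a u ≠ 0 := by
      ext a
      simp only [Finset.mem_filter, Finset.mem_univ, true_and]
      by_cases ha : a ∈ AL L
      · rw [jv_mem u ha]
        exact ⟨fun h => ⟨ha, h⟩, fun h => h.2⟩
      · rw [jv_not u ha]
        exact ⟨fun h => absurd rfl h, fun h => absurd h.1 ha⟩
    rw [h7]
    exact h6
  have hil := C.il_mul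
  have hfin : Finite (Hs T (AA p r)) := inferInstance
  have h8 := htro R (Hs T (AA p r)) i' hi'.idem
  rw [htau', hr5, hcard, pow_add, Odd.neg_pow hoddk, Nat.cast_mul, ← h8]
  push_cast
  have h9 : ((T.l : R)) ^ (Finset.univ.filter fun a => jv (AL L) u a ≠ 0).card *
      C.il ^ (Finset.univ.filter fun a => jv (AL L) u a ≠ 0).card = 1 := by
    rw [← mul_pow, mul_comm, hil, one_pow]
  linear_combination (-(T.l : R) ^ Nat.card {a : AA p r // a ∈ AL (L ⊔ AddSubgroup.zmultiples u)} *
    ((Nat.card (Hs T (AA p r)) : R) * i'.coeff 1)) * h9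

/-- the inequality (4.1) -/
theorem num (hhb : S_HB) (hrho : S_RHO) (htr : S_TR) (htro : S_TRO)
    (htau : S_TAU) (hbr : S_BRH) (hlft : S_LFT) (hodd : S_ODD) : S_NUM := by
  intro p _ r hp2 T R _ _ _ _ hch hmax C d
  have hp := (Fact.out : p.Prime)
  have hT := T.prime
  induction d with
  | zero =>
    intro L hL i hi h1
    have hLtop : L = ⊤ := by
      rw [pow_zero, mul_one] at hL
      have : Nat.card L = Nat.card (Fin r → ZMod p) := by
        rw [hL, Nat.card_fun, Nat.card_zmod, Nat.card_eq_fintype_card, Fintype.card_fin]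
      exact AddSubgroup.eq_top_of_card_eq L this
    have hAL : AL L = (∅ : Set (AA p r)) := by
      ext a
      simp only [Set.mem_empty_iff_false, iff_false]
      intro ha
      obtain ⟨u, hu⟩ := (hodd p r hp2).2.1 a
      exact hu (ha u (by rw [hLtop]; trivial))
    have h2 := num_zero hhb htro hAL hi h1
    rw [h2]
    unfold beta
    rw [Finset.range_zero, Finset.prod_empty, one_mul]
    exact Nat.le_mul_of_pos_right _ (pow_pos hT.pos _)
  | succ d ih =>
    intro L hL i hi h1
    classical
    have hN := fun u hu => num_u hhb hrho htro htau hbr hlft hodd hp2 hmax ih hL hi h1 u hu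
    choose N hN1 hN2 using hN
    obtain ⟨M, hM⟩ := num_tr htr hrho hi
    obtain ⟨-, r2, -, -, -, -, -, -⟩ := hrho p T (AA p r) R C
    set a := Nat.card {a : AA p r // a ∈ AL L} with ha
    set D := dm (red R (Hs T (AA p r)) i) with hD
    have hfin : Finite (Hs T (AA p r)) := inferInstance
    have htroi := htro R (Hs T (AA p r)) i hi.idem
    let c : (Fin r → ZMod p) → R := fun u =>
      (T.l : R) ^ a * ((Nat.card (Hs T (AA p r)) : R) * (rho C (jv (AL L) u) * i).coeff 1)
    let N' : (Fin r → ZMod p) → ℕ := fun u => if h : u ∉ L then N u h else 0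
    have hcL : ∀ u ∈ L, c u = ((T.l ^ a * D : ℕ) : R) := by
      intro u hu
      show (T.l : R) ^ a * ((Nat.card (Hs T (AA p r)) : R) * (rho C (jv (AL L) u) * i).coeff 1) = _
      rw [jv_L hu, r2, hi.ee, htroi]
      push_cast
      rfl
    have hcN : ∀ u, u ∉ L → c u = -((N' u : ℕ) : R) := by
      intro u hu
      show (T.l : R) ^ a * ((Nat.card (Hs T (AA p r)) : R) * (rho C (jv (AL L) u) * i).coeff 1) = _
      rw [hN2 u hu]
      simp only [N']
      rw [dif_pos hu]
    have hsum : ∑ u, c u = ((T.l ^ a * (p ^ r * M) : ℕ) : R) := by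
      show ∑ u, (T.l : R) ^ a * ((Nat.card (Hs T (AA p r)) : R) *
        (rho C (jv (AL L) u) * i).coeff 1) = _
      rw [← Finset.mul_sum, hM]
      push_cast
      rfl
    have hsplit : ∑ u, c u = ((Nat.card L * (T.l ^ a * D) : ℕ) : R) -
        ((∑ u ∈ Finset.univ.filter (fun u => u ∉ L), N' u : ℕ) : R) := by
      rw [← Finset.sum_filter_add_sum_filter_not Finset.univ (fun u => u ∈ L),
        Finset.sum_congr rfl fun u hu => hcL u (Finset.mem_filter.1 hu).2,
        Finset.sum_congr rfl fun u hu => hcN u (Finset.mem_filter.1 hu).2, Finset.sum_const,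
        Finset.sum_neg_distrib, ← sub_eq_add_neg]
      congr 1
      · rw [nsmul_eq_mul, ← Nat.cast_mul]
        congr 2
        rw [Nat.card_eq_fintype_card]
        exact (Fintype.card_subtype _).symm
      · push_cast
        rfl
    have hnat : Nat.card L * (T.l ^ a * D) = T.l ^ a * (p ^ r * M) +
        ∑ u ∈ Finset.univ.filter (fun u => u ∉ L), N' u := by
      have h3 : ((Nat.card L * (T.l ^ a * D) : ℕ) : R) = ((T.l ^ a * (p ^ r * M) +
        ∑ u ∈ Finset.univ.filter (fun u => u ∉ L), N' u : ℕ) : R) := by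
        rw [Nat.cast_add, ← hsum, hsplit, sub_add_cancel]
      exact Nat.cast_injective h3
    have hge : (Finset.univ.filter (fun u => u ∉ L)).card *
        (beta p d * T.l ^ (2 * Fintype.card (AA p r))) ≤
        ∑ u ∈ Finset.univ.filter (fun u => u ∉ L), N' u := by
      rw [← smul_eq_mul]
      refine Finset.card_nsmul_le_sum _ _ _ ?_
      intro u hu
      have hu' := (Finset.mem_filter.1 hu).2
      have h4 := hN1 u hu'
      simp only [N']
      rw [dif_pos hu']
      exact h4
    have hcount : (Finset.univ.filter (fun u => u ∉ L)).card = Nat.card L * (p ^ (d + 1) - 1) := by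
      have h5 := Finset.card_filter_add_card_filter_not (s := (Finset.univ : Finset (Fin r → ZMod p)))
        (fun u => u ∈ L)
      rw [Finset.card_univ, Fintype.card_fun, ZMod.card, Fintype.card_fin, ← hL] at h5
      have h6 : (Finset.univ.filter (fun u => u ∈ L)).card = Nat.card L := by
        rw [Nat.card_eq_fintype_card]
        exact (Fintype.card_subtype _).symm
      rw [h6] at h5
      rw [Nat.mul_sub, mul_one]
      omega
    rw [hcount] at hge
    have hLpos : 0 < Nat.card L := Nat.card_pos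
    have h7 : Nat.card L * (beta p (d + 1) * T.l ^ (2 * Fintype.card (AA p r))) ≤
        Nat.card L * (D * T.l ^ a) := by
      calc Nat.card L * (beta p (d + 1) * T.l ^ (2 * Fintype.card (AA p r))) =
          Nat.card L * (p ^ (d + 1) - 1) * (beta p d * T.l ^ (2 * Fintype.card (AA p r))) := by
            unfold beta
            rw [Finset.prod_range_succ]
            ring
        _ ≤ Nat.card L * (T.l ^ a * D) := by rw [hnat]; omega
        _ = _ := by ring
    exact Nat.le_of_mul_le_mul_left h7 hLpos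

end Pool.Agent.Helper47.EP
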